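import Mathlib

/-!
# Products of the two unipotent matrices, helper file
-/

set_option autoImplicit false

namespace Pool.Agent.Q120.JS

open Matrix Finset

/-- the two matrices -/
def A0 : Bool → Matrix (Fin 2) (Fin 2) ℝ
  | false => !![1, 1; 0, 1]
  | true => !![1, 0; 1, 1]

/-- product along a word, the first letter is applied first -/
def M : List Bool → Matrix (Fin 2) (Fin 2) ℝ
  | [] => 1
  | x :: w => M w * A0 x

lemma M_append (u v : List Bool) : M (u ++ v) = M v * M u := by
  induction u with
  | nil => simp [M]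
  | cons x u ih => simp [M, ih, Matrix.mul_assoc]

lemma M_single (x : Bool) : M [x] = A0 x := by simp [M]

lemma A0_nonneg (x : Bool) (i j : Fin 2) : 0 ≤ A0 x i j := by
  cases x <;> fin_cases i <;> fin_cases j <;> simp [A0]

lemma M_nonneg (w : List Bool) (i j : Fin 2) : 0 ≤ M w i j := by
  induction w generalizing i j with
  | nil =>
    simp only [M, Matrix.one_apply]
    split_ifs <;> norm_num
  | cons x w ih =>
    simp only [M, Matrix.mul_apply, Fin.sum_univ_two]
    have := A0_nonneg x
    exact add_nonneg (mul_nonneg (ih _ _) (this _ _)) (mul_nonneg (ih _ _) (this _ _))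

lemma A0_det (x : Bool) : (A0 x).det = 1 := by
  cases x <;> simp [A0, Matrix.det_fin_two]

lemma M_det (w : List Bool) : (M w).det = 1 := by
  induction w with
  | nil => simp [M]
  | cons x w ih => simp [M, Matrix.det_mul, ih, A0_det]

lemma M_det' (w : List Bool) : M w 0 0 * M w 1 1 - M w 0 1 * M w 1 0 = 1 := by
  have := M_det w
  rwa [Matrix.det_fin_two] at this

/-- the sum of the entries -/
def sg (w : List Bool) : ℝ := M w 0 0 + M w 0 1 + (M w 1 0 + M w 1 1)

lemma sg_nonneg (w : List Bool) : 0 ≤ sg w := by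
  unfold sg
  have := M_nonneg w
  have h1 := this 0 0
  have h2 := this 0 1
  have h3 := this 1 0
  have h4 := this 1 1
  linarith

lemma sg_append (u v : List Bool) : sg (u ++ v) ≤ sg v * sg u := by
  unfold sg
  rw [M_append]
  simp only [Matrix.mul_apply, Fin.sum_univ_two]
  have hu := M_nonneg u
  have hv := M_nonneg v
  have a1 := hv 0 0
  have a2 := hv 0 1
  have a3 := hv 1 0
  have a4 := hv 1 1
  have b1 := hu 0 0
  have b2 := hu 0 1
  have b3 := hu 1 0
  have b4 := hu 1 1
  generalize M v 0 0 = p at *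
  generalize M v 0 1 = q at *
  generalize M v 1 0 = r at *
  generalize M v 1 1 = s at *
  generalize M u 0 0 = a at *
  generalize M u 0 1 = b at *
  generalize M u 1 0 = c at *
  generalize M u 1 1 = d at *
  have : (p + q + (r + s)) * (a + b + (c + d)) -
      (p * a + q * c + (p * b + q * d) + (r * a + s * c + (r * b + s * d))) =
      (p + r) * (c + d) + (q + s) * (a + b) := by ring
  have h2 : 0 ≤ (p + r) * (c + d) + (q + s) * (a + b) := by positivity
  linarith

/-- the trace -/
def tr (w : List Bool) : ℝ := M w 0 0 + M w 1 1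

lemma two_le_tr (w : List Bool) : 2 ≤ tr w := by
  unfold tr
  have h := M_det' w
  have hw := M_nonneg w
  have a1 := hw 0 0
  have a2 := hw 0 1
  have a3 := hw 1 0
  have a4 := hw 1 1
  have h1 : 1 ≤ M w 0 0 * M w 1 1 := by nlinarith [mul_nonneg a2 a3]
  nlinarith [sq_nonneg (M w 0 0 - M w 1 1)]

lemma tr_le_sg (w : List Bool) : tr w ≤ sg w := by
  unfold tr sg
  have hw := M_nonneg w
  have a2 := hw 0 1
  have a3 := hw 1 0
  linarith

lemma two_le_sg (w : List Bool) : 2 ≤ sg w := (two_le_tr w).trans (tr_le_sg w)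

lemma sg_pos (w : List Bool) : 0 < sg w := by linarith [two_le_sg w]

lemma sg_le_tr (w : List Bool) : sg w ≤ tr (true :: false :: w) := by
  unfold tr sg
  have e : M (true :: false :: w) = M w * A0 false * A0 true := rfl
  rw [e]
  simp only [A0, Matrix.mul_apply, Fin.sum_univ_two]
  have hw := M_nonneg w
  have a1 := hw 0 0
  have a2 := hw 0 1
  have a3 := hw 1 0
  have a4 := hw 1 1
  simp
  linarith

/-- the larger eigenvalue -/
noncomputable def lam (w : List Bool) : ℝ := (tr w + Real.sqrt (tr w ^ 2 - 4)) / 2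

lemma disc_nonneg (w : List Bool) : 0 ≤ tr w ^ 2 - 4 := by nlinarith [two_le_tr w]

lemma tr_le_lam (w : List Bool) : tr w ≤ 2 * lam w := by
  unfold lam
  linarith [Real.sqrt_nonneg (tr w ^ 2 - 4)]

lemma one_le_lam (w : List Bool) : 1 ≤ lam w := by
  linarith [tr_le_lam w, two_le_tr w]

lemma lam_root (w : List Bool) : lam w ^ 2 - tr w * lam w + 1 = 0 := by
  unfold lam
  have h := Real.sq_sqrt (disc_nonneg w)
  nlinarith

/-- the `l¹` norm -/
def l1 (v : Fin 2 → ℝ) : ℝ := |v 0| + |v 1|

lemma l1_nonneg (v : Fin 2 → ℝ) : 0 ≤ l1 v := by unfold l1; positivity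

lemma l1_pos {v : Fin 2 → ℝ} (h : v ≠ 0) : 0 < l1 v := by
  by_contra hc
  push Not at hc
  apply h
  unfold l1 at hc
  have h0 := abs_nonneg (v 0)
  have h1 := abs_nonneg (v 1)
  funext i
  fin_cases i
  · show v 0 = 0
    exact abs_eq_zero.1 (le_antisymm (by linarith) h0)
  · show v 1 = 0
    exact abs_eq_zero.1 (le_antisymm (by linarith) h1)

lemma l1_smul (c : ℝ) (v : Fin 2 → ℝ) : l1 (c • v) = |c| * l1 v := by
  unfold l1
  simp only [Pi.smul_apply, smul_eq_mul, abs_mul]
  ring

lemma l1_add (u v : Fin 2 → ℝ) : l1 (u + v) ≤ l1 u + l1 v := by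
  unfold l1
  simp only [Pi.add_apply]
  linarith [abs_add_le (u 0) (v 0), abs_add_le (u 1) (v 1)]

lemma l1_mulVec (w : List Bool) (v : Fin 2 → ℝ) : l1 (M w *ᵥ v) ≤ sg w * l1 v := by
  unfold l1 sg
  simp only [Matrix.mulVec, dotProduct, Fin.sum_univ_two]
  have hw := M_nonneg w
  have a1 := hw 0 0
  have a2 := hw 0 1
  have a3 := hw 1 0
  have a4 := hw 1 1
  generalize M w 0 0 = p at *
  generalize M w 0 1 = q at *
  generalize M w 1 0 = r at *
  generalize M w 1 1 = s at *
  have h1 : |p * v 0 + q * v 1| ≤ p * |v 0| + q * |v 1| := by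
    refine (abs_add_le _ _).trans (le_of_eq ?_)
    rw [abs_mul, abs_mul, abs_of_nonneg a1, abs_of_nonneg a2]
  have h2 : |r * v 0 + s * v 1| ≤ r * |v 0| + s * |v 1| := by
    refine (abs_add_le _ _).trans (le_of_eq ?_)
    rw [abs_mul, abs_mul, abs_of_nonneg a3, abs_of_nonneg a4]
  have h3 := abs_nonneg (v 0)
  have h4 := abs_nonneg (v 1)
  nlinarith [mul_nonneg a1 h4, mul_nonneg a2 h3, mul_nonneg a3 h4, mul_nonneg a4 h3]

/-- powers of a word -/
def wpow (w : List Bool) : ℕ → List Bool
  | 0 => []
  | j + 1 => w ++ wpow w j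

lemma M_wpow (w : List Bool) (j : ℕ) : M (wpow w j) = M w ^ j := by
  induction j with
  | zero => simp [wpow, M]
  | succ j ih => rw [wpow, M_append, ih, pow_succ]

lemma length_wpow (w : List Bool) (j : ℕ) : (wpow w j).length = j * w.length := by
  induction j with
  | zero => simp [wpow]
  | succ j ih => rw [wpow, List.length_append, ih]; ring

lemma count_wpow (w : List Bool) (j : ℕ) : (wpow w j).count true = j * w.count true := by
  induction j with
  | zero => simp [wpow]
  | succ j ih => rw [wpow, List.count_append, ih]; ring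

lemma lam_pow_le (w : List Bool) (j : ℕ) : lam w ^ j ≤ sg (wpow w j) := by
  have hdet : (M w - lam w • (1 : Matrix (Fin 2) (Fin 2) ℝ)).det = 0 := by
    rw [Matrix.det_fin_two]
    simp
    have h1 := lam_root w
    have h2 := M_det' w
    unfold tr at h1
    nlinarith
  obtain ⟨v, hv0, hv⟩ := Matrix.exists_mulVec_eq_zero_iff.2 hdet
  have hv1 : M w *ᵥ v = lam w • v := by
    rw [Matrix.sub_mulVec, Matrix.smul_mulVec, Matrix.one_mulVec, sub_eq_zero] at hv
    exact hv
  have hpow : ∀ j : ℕ, M w ^ j *ᵥ v = lam w ^ j • v := by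
    intro j
    induction j with
    | zero => simp
    | succ j ih =>
      rw [pow_succ, ← Matrix.mulVec_mulVec, hv1, Matrix.mulVec_smul, ih, smul_smul, pow_succ,
        mul_comm]
  have h1 := l1_mulVec (wpow w j) v
  rw [M_wpow, hpow, l1_smul, abs_of_nonneg (pow_nonneg (by linarith [one_le_lam w]) j)] at h1
  exact le_of_mul_le_mul_right h1 (l1_pos hv0)

/-- the factor of length `n` at position `i` -/
def fac (x : ℕ → Bool) (i n : ℕ) : List Bool := (List.range n).map (fun s => x (i + s))

lemma fac_zero (x : ℕ → Bool) (i : ℕ) : fac x i 0 = [] := by simp [fac]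

lemma length_fac (x : ℕ → Bool) (i n : ℕ) : (fac x i n).length = n := by simp [fac]

lemma fac_add (x : ℕ → Bool) (i m n : ℕ) : fac x i (m + n) = fac x i m ++ fac x (i + m) n := by
  unfold fac
  rw [List.range_add, List.map_append, List.map_map]
  congr 1
  apply List.map_congr_left
  intro s _
  simp [add_assoc]

lemma fac_succ (x : ℕ → Bool) (i n : ℕ) : fac x i (n + 1) = fac x i n ++ [x (i + n)] := by
  rw [fac_add]
  simp [fac]

lemma fac_shift (x : ℕ → Bool) (i n : ℕ) : fac x i n = fac (fun s => x (i + s)) 0 n := by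
  simp [fac]

/-- every word is a factor -/
lemma exists_fac (w : List Bool) : ∃ x : ℕ → Bool, fac x 0 w.length = w := by
  refine ⟨fun i => w.getD i false, ?_⟩
  apply List.ext_getElem
  · simp [fac]
  · intro i h1 h2
    simp [fac, h2]

lemma fac_congr {x y : ℕ → Bool} {i n : ℕ} (h : ∀ s < n, x (i + s) = y (i + s)) :
    fac x i n = fac y i n := by
  unfold fac
  apply List.map_congr_left
  intro s hs
  exact h s (List.mem_range.1 hs)

lemma sg_le (w : List Bool) : sg w ≤ 2 * 3 ^ w.length := by
  induction w with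
  | nil => simp [sg, M]; norm_num
  | cons x w ih =>
    have h1 := sg_append [x] w
    have h2 : sg [x] = 3 := by
      unfold sg
      rw [M_single]
      cases x <;> simp [A0] <;> norm_num
    rw [h2] at h1
    simp only [List.singleton_append] at h1
    rw [List.length_cons, pow_succ]
    nlinarith

lemma sg_replicate_false (n : ℕ) : sg (List.replicate n false) = n + 2 := by
  have h : M (List.replicate n false) = !![1, (n : ℝ); 0, 1] := by
    induction n with
    | zero => simp [M]; ext i j; fin_cases i <;> fin_cases j <;> simp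
    | succ n ih =>
      rw [List.replicate_succ, M, ih, A0]
      ext i j
      fin_cases i <;> fin_cases j <;> simp [Matrix.mul_apply, Fin.sum_univ_two]
      ring
  unfold sg
  rw [h]
  simp
  ring

end Pool.Agent.Q120.JS
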