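import Pool.Agent.Q120.JS.Count

/-!
# Closing up a repeated factor, helper file
-/

set_option autoImplicit false

namespace Pool.Agent.Q120.JS

open Matrix Finset Filter Topology

section

variable {γ S t d C : ℝ}

/-- cross product -/
def crs (a b : Fin 2 → ℝ) : ℝ := a 0 * b 1 - a 1 * b 0

lemma crs_hat (w : List Bool) (a b : Fin 2 → ℝ) :
    crs (hat γ S t w a) (hat γ S t w b) = cc γ S t w ^ 2 * crs a b := by
  unfold crs hat
  simp only [Pi.smul_apply, smul_eq_mul, Matrix.mulVec, dotProduct, Fin.sum_univ_two]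
  have h := M_det' w
  linear_combination (cc γ S t w ^ 2 * (a 0 * b 1 - a 1 * b 0)) * h

lemma abs_crs_le {a b : Fin 2 → ℝ} (ha : ∀ i, 0 ≤ a i) (hb : ∀ i, 0 ≤ b i) (h1 : l1 a ≤ 1)
    (h2 : l1 b ≤ 1) : |crs a b| ≤ 1 := by
  unfold l1 at h1 h2
  rw [abs_of_nonneg (ha 0), abs_of_nonneg (ha 1)] at h1
  rw [abs_of_nonneg (hb 0), abs_of_nonneg (hb 1)] at h2
  unfold crs
  have a0 := ha 0
  have a1 := ha 1
  have b0 := hb 0
  have b1 := hb 1
  rw [abs_le]
  constructor <;> nlinarith [mul_nonneg a0 b0, mul_nonneg a0 b1, mul_nonneg a1 b0,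
    mul_nonneg a1 b1]

lemma l1_of_nonneg {a : Fin 2 → ℝ} (ha : ∀ i, 0 ≤ a i) : l1 a = a 0 + a 1 := by
  unfold l1
  rw [abs_of_nonneg (ha 0), abs_of_nonneg (ha 1)]

/-- the algebraic core of the closing argument -/
lemma closing_alg {κ c lm τ η : ℝ} (hc : 0 < c) (hlm : 1 ≤ lm) (hroot : lm ^ 2 - τ * lm + 1 = 0)
    (hdet : |κ ^ 2 - c * τ * κ + c ^ 2| ≤ η) :
    κ - c * lm ≤ Real.sqrt η ∧ (c ≤ 1 / 6 → 1 / 2 ≤ κ → κ - c * lm ≤ 3 * η) := by
  have hlm0 : 0 < lm := by linarith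
  have hη : 0 ≤ η := (abs_nonneg _).trans hdet
  have hfac : κ ^ 2 - c * τ * κ + c ^ 2 = (κ - c * lm) * (κ - c / lm) := by
    have : τ = lm + 1 / lm := by field_simp; linarith
    rw [this]
    field_simp
    ring
  rw [hfac] at hdet
  have hle : (κ - c * lm) * (κ - c / lm) ≤ η := (le_abs_self _).trans hdet
  have h2 : c / lm ≤ c := div_le_self hc.le hlm
  have h3 : c ≤ c * lm := by nlinarith
  constructor
  · rcases le_or_gt κ (c * lm) with h | h
    · linarith [Real.sqrt_nonneg η]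
    · apply Real.le_sqrt_of_sq_le
      nlinarith
  · intro h6 h12
    rcases le_or_gt κ (c * lm) with h | h
    · linarith
    · have : 1 / 3 ≤ κ - c / lm := by linarith
      nlinarith

/-- step 4 -/
lemma closing (H : Core γ S t d C) {ε : ℝ} {n : ℕ} {x : ℕ → Bool} {z : Fin 2 → ℝ}
    (h : Traj γ S t ε n x z) (hε : ε ≤ 1 / 4) {i j L q : ℕ} (hj : j = i + q)
    (hn : j + L ≤ n) (hrep : fac x i L = fac x j L) {Δ : ℝ}
    (hΔ : Δ = cc γ S t (fac x i L) ^ 2) (hΔ1 : 4 * C ^ 2 * Δ ≤ 1 / 4) :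
    1 - ε - 4 * C ^ 2 * Δ - Real.sqrt (12 * C ^ 3 * Δ) ≤
      Real.exp (-(d * |DD γ (fac x (i + L) q)|)) ∧
    (cc γ S t (fac x (i + L) q) ≤ 1 / 6 → 1 - ε - 4 * C ^ 2 * Δ - 36 * C ^ 3 * Δ ≤
      Real.exp (-(d * |DD γ (fac x (i + L) q)|))) := by
  have hC := H.hC
  have hC0 : 0 < C := by linarith
  have hε2 : ε ≤ 1 / 2 := by linarith
  set u := fac x i L with hu
  set g := fac x (i + L) q with hg
  set a := VV γ S t x z i with ha
  set b := VV γ S t x z j with hb
  set y := VV γ S t x z (i + L) with hy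
  set y' := VV γ S t x z (j + L) with hy'
  have e1 : y = hat γ S t u a := VV_add x z i L
  have e2 : y' = hat γ S t u b := by rw [hy', VV_add, ← hrep]
  have e3 : y' = hat γ S t g y := by
    rw [hy', hy, ← VV_add]
    congr 1
    omega
  have hΔ0 : 0 ≤ Δ := by rw [hΔ]; positivity
  have hcr : |crs y y'| ≤ Δ := by
    rw [e1, e2, crs_hat, abs_mul, ← hΔ, abs_of_nonneg hΔ0]
    have := abs_crs_le (h.vnonneg i) (h.vnonneg j) (h.l1_le H i) (h.l1_le H j)
    rw [← ha, ← hb] at this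
    nlinarith
  have yn : ∀ k, 0 ≤ y k := h.vnonneg _
  have yn' : ∀ k, 0 ≤ y' k := h.vnonneg _
  have hl : l1 y = y 0 + y 1 := l1_of_nonneg yn
  have hl' : l1 y' = y' 0 + y' 1 := l1_of_nonneg yn'
  have hlo : 1 / (2 * C) ≤ l1 y := h.l1_ge H hε2 (by omega)
  have hlp : 0 < l1 y := lt_of_lt_of_le (by positivity) hlo
  have hlo2 : 1 ≤ 2 * C * l1 y := by
    rw [div_le_iff₀ (by positivity)] at hlo
    linarith
  set κ := l1 y' / l1 y with hκ
  have hκ0 : 0 ≤ κ := div_nonneg (l1_nonneg _) hlp.le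
  have hκl : κ * l1 y = l1 y' := div_mul_cancel₀ _ hlp.ne'
  have hκC : κ ≤ C := by
    rw [hκ, div_le_iff₀ hlp, e3]
    exact l1_hat_le' H g y
  set e0 := y' 0 - κ * y 0 with he0
  have hes : y' 1 - κ * y 1 = -e0 := by
    rw [hl, hl'] at hκl
    rw [he0]
    linarith
  have he0l : e0 * l1 y = -crs y y' := by
    rw [he0, hl]
    unfold crs
    rw [hl, hl'] at hκl
    linear_combination (-(y 0)) * hκl
  have he0b : |e0| * l1 y ≤ Δ := by
    rw [← abs_of_pos hlp, ← abs_mul, he0l, abs_neg]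
    exact hcr
  have he0c : |e0| ≤ 2 * C * Δ := by
    have h1 : |e0| * 1 ≤ |e0| * (2 * C * l1 y) :=
      mul_le_mul_of_nonneg_left hlo2 (abs_nonneg _)
    have h2 : 2 * C * (|e0| * l1 y) ≤ 2 * C * Δ := mul_le_mul_of_nonneg_left he0b (by positivity)
    linarith
  -- the lower bound for κ
  have hvec : y' = κ • y + (fun k : Fin 2 => if k = 0 then e0 else -e0) := by
    funext k
    fin_cases k
    · simp [he0]
    · simp
      linarith
  have hNe : Nn γ S t (fun k : Fin 2 => if k = 0 then e0 else -e0) ≤ 4 * C ^ 2 * Δ := by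
    refine (Nn_le H _).trans ?_
    have : l1 (fun k : Fin 2 => if k = 0 then e0 else -e0) = 2 * |e0| := by
      unfold l1
      simp
      ring
    rw [this]
    nlinarith
  have hκlow : 1 - ε - 4 * C ^ 2 * Δ ≤ κ := by
    have h1 := h.N_gt H (i := j + L) hn
    rw [← hy', hvec] at h1
    have h2 := Nn_add H (κ • y) (fun k : Fin 2 => if k = 0 then e0 else -e0)
    have h3 := Nn_smul_le H hκ0 y
    have h4 := h.N_le H (i + L)
    rw [← hy] at h4
    nlinarith
  -- the determinant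
  set c := cc γ S t g with hc
  have hcp : 0 < c := cc_pos g
  have q0 : y' 0 = c * (M g 0 0 * y 0 + M g 0 1 * y 1) := by
    rw [e3]
    simp [hat, Matrix.mulVec, dotProduct, Fin.sum_univ_two, hc]
  have q1 : y' 1 = c * (M g 1 0 * y 0 + M g 1 1 * y 1) := by
    rw [e3]
    simp [hat, Matrix.mulVec, dotProduct, Fin.sum_univ_two, hc]
  have m00 := M_nonneg g 0 0
  have m01 := M_nonneg g 0 1
  have m10 := M_nonneg g 1 0
  have m11 := M_nonneg g 1 1
  have hdet1 := M_det' g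
  have hsgC : c * sg g ≤ C := csg_le H g
  have hpoly : κ ^ 2 - c * tr g * κ + c ^ 2 =
      (c * M g 0 0 - κ) * (c * M g 1 1 - κ) - (c * M g 0 1) * (c * M g 1 0) := by
    unfold tr
    linear_combination (-(c ^ 2)) * hdet1
  have hd0 : (κ ^ 2 - c * tr g * κ + c ^ 2) * y 0 =
      e0 * (c * M g 1 1 - κ + c * M g 0 1) := by
    rw [hpoly]
    have t1 : (c * M g 0 0 - κ) * y 0 + c * M g 0 1 * y 1 = e0 := by rw [he0, q0]; ring
    have t2 : c * M g 1 0 * y 0 + (c * M g 1 1 - κ) * y 1 = -e0 := by rw [← hes, q1]; ring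
    linear_combination (c * M g 1 1 - κ) * t1 - (c * M g 0 1) * t2
  have hd1 : (κ ^ 2 - c * tr g * κ + c ^ 2) * y 1 =
      -(e0 * (c * M g 0 0 - κ + c * M g 1 0)) := by
    rw [hpoly]
    have t1 : (c * M g 0 0 - κ) * y 0 + c * M g 0 1 * y 1 = e0 := by rw [he0, q0]; ring
    have t2 : c * M g 1 0 * y 0 + (c * M g 1 1 - κ) * y 1 = -e0 := by rw [← hes, q1]; ring
    linear_combination (-(c * M g 1 0)) * t1 + (c * M g 0 0 - κ) * t2
  set P := κ ^ 2 - c * tr g * κ + c ^ 2 with hP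
  have hPl : |P| * l1 y ≤ |e0| * (3 * C) := by
    have b0 : |P| * y 0 = |e0| * |c * M g 1 1 - κ + c * M g 0 1| := by
      rw [← abs_mul, ← hd0, abs_mul, abs_of_nonneg (yn 0)]
    have b1 : |P| * y 1 = |e0| * |c * M g 0 0 - κ + c * M g 1 0| := by
      rw [← abs_mul, ← abs_neg (e0 * _), ← hd1, abs_mul, abs_of_nonneg (yn 1)]
    have c0 : |c * M g 1 1 - κ + c * M g 0 1| ≤ c * M g 1 1 + κ + c * M g 0 1 := by
      have := mul_nonneg hcp.le m11
      have := mul_nonneg hcp.le m01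
      rw [abs_le]
      constructor <;> linarith
    have c1 : |c * M g 0 0 - κ + c * M g 1 0| ≤ c * M g 0 0 + κ + c * M g 1 0 := by
      have := mul_nonneg hcp.le m00
      have := mul_nonneg hcp.le m10
      rw [abs_le]
      constructor <;> linarith
    rw [hl, mul_add, b0, b1, ← mul_add]
    refine mul_le_mul_of_nonneg_left ?_ (abs_nonneg _)
    unfold sg at hsgC
    nlinarith
  have hPb : |P| ≤ 12 * C ^ 3 * Δ := by
    have h1 : |P| * 1 ≤ |P| * (2 * C * l1 y) := mul_le_mul_of_nonneg_left hlo2 (abs_nonneg _)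
    have h2 : 2 * C * (|P| * l1 y) ≤ 2 * C * (|e0| * (3 * C)) :=
      mul_le_mul_of_nonneg_left hPl (by positivity)
    have h3 : 2 * C * (|e0| * (3 * C)) ≤ 2 * C * ((2 * C * Δ) * (3 * C)) := by
      refine mul_le_mul_of_nonneg_left ?_ (by positivity)
      exact mul_le_mul_of_nonneg_right he0c (by positivity)
    calc |P| ≤ 2 * C * ((2 * C * Δ) * (3 * C)) := by linarith
      _ = 12 * C ^ 3 * Δ := by ring
  obtain ⟨r1, r2⟩ := closing_alg hcp (one_le_lam g) (lam_root g) hPb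
  have hlam := H.hlam g
  rw [← hc] at hlam
  refine ⟨by linarith, fun h6 => ?_⟩
  have := r2 h6 (by linarith)
  linarith

end

end Pool.Agent.Q120.JS
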