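import Pool.Agent.Q120.JS.Hat

/-!
# Counting the words of the language, helper file
-/

set_option autoImplicit false

namespace Pool.Agent.Q120.JS

open Matrix Finset Filter Topology

/-- the step of the column vector -/
def stp : ℝ × ℝ → Bool → ℝ × ℝ
  | (a, b), false => (a + b, b)
  | (a, b), true => (a, a + b)

/-- row sums -/
def rr (u : List Bool) : ℝ × ℝ := u.foldl stp (1, 1)

lemma rr_append_single (u : List Bool) (b : Bool) : rr (u ++ [b]) = stp (rr u) b := by
  simp [rr, List.foldl_append]

lemma rr_eq (u : List Bool) : rr u = (M u 0 0 + M u 0 1, M u 1 0 + M u 1 1) := by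
  induction u using List.reverseRecOn with
  | nil => simp [rr, M]
  | append_singleton u b ih =>
    rw [rr_append_single, ih, M_append, M_single]
    cases b
    · simp [stp, A0, Matrix.mul_apply, Fin.sum_univ_two]
      ring
    · simp [stp, A0, Matrix.mul_apply, Fin.sum_univ_two]
      ring

lemma rr_sum (u : List Bool) : (rr u).1 + (rr u).2 = sg u := by
  rw [rr_eq]
  rfl

lemma rr_pos (u : List Bool) : 0 < (rr u).1 ∧ 0 < (rr u).2 := by
  induction u using List.reverseRecOn with
  | nil => simp [rr]
  | append_singleton u b ih =>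
    rw [rr_append_single]
    obtain ⟨h1, h2⟩ := ih
    cases b
    · exact ⟨add_pos h1 h2, h2⟩
    · exact ⟨h1, add_pos h1 h2⟩

/-- the weight -/
noncomputable def mu (u : List Bool) : ℝ := 1 / ((rr u).1 * (rr u).2)

lemma mu_pos (u : List Bool) : 0 < mu u := by
  unfold mu
  have := rr_pos u
  exact div_pos one_pos (mul_pos this.1 this.2)

lemma mu_nil : mu [] = 1 := by simp [mu, rr]

lemma mu_add (u : List Bool) : mu (u ++ [false]) + mu (u ++ [true]) = mu u := by
  unfold mu
  rw [rr_append_single, rr_append_single]
  obtain ⟨h1, h2⟩ := rr_pos u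
  generalize rr u = p at *
  obtain ⟨a, b⟩ := p
  simp only [stp] at *
  have : 0 < a + b := add_pos h1 h2
  field_simp

lemma rr_rep_false (u : List Bool) (n : ℕ) :
    rr (u ++ List.replicate n false) = ((rr u).1 + n * (rr u).2, (rr u).2) := by
  induction n with
  | zero => simp
  | succ n ih =>
    rw [List.replicate_succ', ← List.append_assoc, rr_append_single, ih]
    simp only [stp, Prod.mk.injEq, and_true]
    push_cast
    ring

lemma rr_rep_true (u : List Bool) (n : ℕ) :
    rr (u ++ List.replicate n true) = ((rr u).1, (rr u).2 + n * (rr u).1) := by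
  induction n with
  | zero => simp
  | succ n ih =>
    rw [List.replicate_succ', ← List.append_assoc, rr_append_single, ih]
    simp only [stp, Prod.mk.injEq, true_and]
    push_cast
    ring

/-- one of the two runs carries a positive proportion of the weight -/
lemma mu_run (u : List Bool) (n : ℕ) : mu u / (1 + n) ≤ mu (u ++ List.replicate n false) ∨
    mu u / (1 + n) ≤ mu (u ++ List.replicate n true) := by
  obtain ⟨h1, h2⟩ := rr_pos u
  have hn : (0 : ℝ) ≤ n := Nat.cast_nonneg n
  unfold mu
  rw [rr_rep_false, rr_rep_true]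
  simp only
  generalize (rr u).1 = a at *
  generalize (rr u).2 = b at *
  rcases le_total b a with h | h
  · left
    rw [div_div, div_le_div_iff₀ (by positivity) (by positivity)]
    have : (a + n * b) * b ≤ a * b * (1 + n) := by nlinarith [mul_le_mul_of_nonneg_left h hn]
    linarith
  · right
    rw [div_div, div_le_div_iff₀ (by positivity) (by positivity)]
    have : a * (b + n * a) ≤ a * b * (1 + n) := by nlinarith [mul_le_mul_of_nonneg_left h hn]
    linarith

/-- sum over the extensions of length `n` -/
def T (g : List Bool → ℝ) : ℕ → List Bool → ℝ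
  | 0, u => g u
  | n + 1, u => T g n (u ++ [false]) + T g n (u ++ [true])

lemma T_add (g : List Bool → ℝ) (m n : ℕ) (u : List Bool) :
    T g (m + n) u = T (fun v => T g n v) m u := by
  induction m generalizing u with
  | zero => simp [T]
  | succ m ih => rw [Nat.succ_add]; simp only [T]; rw [ih, ih]

lemma T_mono {g h : List Bool → ℝ} (hgh : ∀ v, g v ≤ h v) (n : ℕ) (u : List Bool) :
    T g n u ≤ T h n u := by
  induction n generalizing u with
  | zero => exact hgh u
  | succ n ih => exact add_le_add (ih _) (ih _)

lemma T_mul (c : ℝ) (g : List Bool → ℝ) (n : ℕ) (u : List Bool) :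
    T (fun v => c * g v) n u = c * T g n u := by
  induction n generalizing u with
  | zero => rfl
  | succ n ih => simp only [T]; rw [ih, ih]; ring

lemma T_mu (n : ℕ) (u : List Bool) : T mu n u = mu u := by
  induction n generalizing u with
  | zero => rfl
  | succ n ih => simp only [T]; rw [ih, ih, mu_add]

lemma T_run {g h : List Bool → ℝ} (hgh : ∀ v, h v ≤ g v) (b : Bool) (n : ℕ) (u : List Bool)
    (h0 : h (u ++ List.replicate n b) ≤ 0) :
    T h n u ≤ T g n u - g (u ++ List.replicate n b) := by
  induction n generalizing u with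
  | zero =>
    simp only [T, List.replicate_zero, List.append_nil] at h0 ⊢
    linarith
  | succ n ih =>
    simp only [T]
    have e : u ++ List.replicate (n + 1) b = (u ++ [b]) ++ List.replicate n b := by
      rw [List.replicate_succ, List.append_assoc]
      rfl
    rw [e] at h0 ⊢
    have h1 := ih _ h0
    have h2 := T_mono hgh n (u ++ [false])
    have h3 := T_mono hgh n (u ++ [true])
    cases b
    · linarith
    · linarith

lemma sum_le_T {g : List Bool → ℝ} (hg : ∀ w, 0 ≤ g w) (n : ℕ) (u : List Bool)
    (F : Finset (List Bool)) (hF : ∀ w ∈ F, ∃ s, s.length = n ∧ w = u ++ s) :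
    ∑ w ∈ F, g w ≤ T g n u := by
  classical
  induction n generalizing u F with
  | zero =>
    have hsub : F ⊆ {u} := by
      intro w hw
      obtain ⟨s, hs, rfl⟩ := hF w hw
      rw [List.length_eq_zero_iff] at hs
      simp [hs]
    calc ∑ w ∈ F, g w ≤ ∑ w ∈ ({u} : Finset (List Bool)), g w :=
          Finset.sum_le_sum_of_subset_of_nonneg hsub fun w _ _ => hg w
      _ = T g 0 u := by simp [T]
  | succ n ih =>
    set F0 := F.filter (fun w => ∃ s, s.length = n ∧ w = (u ++ [false]) ++ s) with hF0
    set F1 := F.filter (fun w => ∃ s, s.length = n ∧ w = (u ++ [true]) ++ s) with hF1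
    have hsub : F ⊆ F0 ∪ F1 := by
      intro w hw
      obtain ⟨s, hs, rfl⟩ := hF w hw
      cases s with
      | nil => simp at hs
      | cons b s =>
        simp only [List.length_cons, Nat.add_right_cancel_iff] at hs
        rw [Finset.mem_union]
        cases b
        · left
          rw [hF0, Finset.mem_filter]
          exact ⟨hw, s, hs, by simp⟩
        · right
          rw [hF1, Finset.mem_filter]
          exact ⟨hw, s, hs, by simp⟩
    have h0 := ih (u ++ [false]) F0 (fun w hw => by
      rw [hF0, Finset.mem_filter] at hw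
      exact hw.2)
    have h1 := ih (u ++ [true]) F1 (fun w hw => by
      rw [hF1, Finset.mem_filter] at hw
      exact hw.2)
    have h2 := Finset.sum_le_sum_of_subset_of_nonneg hsub (f := g) fun w _ _ => hg w
    have h3 := Finset.sum_union_inter (s₁ := F0) (s₂ := F1) (f := g)
    have h4 : 0 ≤ ∑ w ∈ F0 ∩ F1, g w := Finset.sum_nonneg fun w _ => hg w
    simp only [T]
    linarith

section

variable {γ S t d C : ℝ}

/-- the language -/
def Good (γ S t C : ℝ) (w : List Bool) : Prop :=
  ∀ p u s, w = p ++ u ++ s → 1 / (2 * C) ≤ cc γ S t u * sg u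

lemma Good.self {w : List Bool} (h : Good γ S t C w) : 1 / (2 * C) ≤ cc γ S t w * sg w :=
  h [] w [] (by simp)

lemma Good.left {u v : List Bool} (h : Good γ S t C (u ++ v)) : Good γ S t C u := by
  intro p q s e
  exact h p q (s ++ v) (by rw [e]; simp)

lemma Good.right {u v : List Bool} (h : Good γ S t C (u ++ v)) : Good γ S t C v := by
  intro p q s e
  exact h (u ++ p) q s (by rw [e]; simp)

open Classical in
/-- the restricted weight -/
noncomputable def gm (γ S t C : ℝ) (w : List Bool) : ℝ := if Good γ S t C w then mu w else 0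

lemma gm_nonneg (w : List Bool) : 0 ≤ gm γ S t C w := by
  unfold gm
  split_ifs
  · exact (mu_pos w).le
  · exact le_rfl

lemma gm_le (w : List Bool) : gm γ S t C w ≤ mu w := by
  unfold gm
  split_ifs
  · exact le_rfl
  · exact (mu_pos w).le

lemma T_gm_zero {u : List Bool} (h : ¬ Good γ S t C u) (n : ℕ) : T (gm γ S t C) n u = 0 := by
  induction n generalizing u with
  | zero => simp [T, gm, h]
  | succ n ih =>
    simp only [T]
    rw [ih (fun h' => h h'.left), ih (fun h' => h h'.left), add_zero]

lemma not_good_rep (H : Core γ S t d C) {N : ℕ} (hN : D0 d C < N * γ)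
    (hN1 : D0 d C < N * (1 - γ)) (b : Bool) (u : List Bool) :
    ¬ Good γ S t C (u ++ List.replicate N b) := by
  intro h
  have h1 := DD_le H h.right.self
  unfold DD at h1
  cases b
  · have e : (List.replicate N false).count true = 0 := by simp [List.count_replicate]
    rw [e, List.length_replicate] at h1
    have h2 := abs_le.1 h1
    push_cast at h2
    linarith [h2.1]
  · have e : (List.replicate N true).count true = N := by simp
    rw [e, List.length_replicate] at h1
    have h2 := abs_le.1 h1
    linarith [h2.2]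

/-- decay of the restricted weight -/
lemma T_decay (H : Core γ S t d C) {N : ℕ} (hN : D0 d C < N * γ)
    (hN1 : D0 d C < N * (1 - γ)) (j r : ℕ) (u : List Bool) :
    T (gm γ S t C) (j * N + r) u ≤ ((N : ℝ) / (N + 1)) ^ j * mu u := by
  induction j generalizing u with
  | zero =>
    rw [Nat.zero_mul, Nat.zero_add, pow_zero, one_mul, ← T_mu r u]
    exact T_mono gm_le r u
  | succ j ih =>
    have e : (j + 1) * N + r = N + (j * N + r) := by ring
    rw [e, T_add]
    have hN0 : (0 : ℝ) ≤ N := Nat.cast_nonneg N
    have hθ : 0 ≤ ((N : ℝ) / (N + 1)) ^ j := by positivity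
    have hb : ∀ b : Bool, T (fun v => T (gm γ S t C) (j * N + r) v) N u ≤
        ((N : ℝ) / (N + 1)) ^ j * (mu u - mu (u ++ List.replicate N b)) := by
      intro b
      have h1 := T_run (g := fun v => ((N : ℝ) / (N + 1)) ^ j * mu v)
        (h := fun v => T (gm γ S t C) (j * N + r) v) ih b N u
        (le_of_eq (T_gm_zero (not_good_rep H hN hN1 b u) _))
      rw [T_mul, T_mu] at h1
      linarith
    have h2 : ((N : ℝ) / (N + 1)) ^ (j + 1) * mu u =
        ((N : ℝ) / (N + 1)) ^ j * (mu u - mu u / (1 + N)) := by
      rw [pow_succ]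
      field_simp
      ring
    rw [h2]
    rcases mu_run u N with h | h
    · exact (hb false).trans (mul_le_mul_of_nonneg_left (by linarith) hθ)
    · exact (hb true).trans (mul_le_mul_of_nonneg_left (by linarith) hθ)

/-- lower bound for the weight of a good word -/
lemma mu_ge (H : Core γ S t d C) {w : List Bool} (h : Good γ S t C w) :
    Real.exp (-(2 * (w.length * S)) - 2 * (D0 d C * |t|)) / C ^ 2 ≤ mu w := by
  have hC := H.hC
  obtain ⟨h1, h2⟩ := rr_pos w
  have h3 := rr_sum w
  have hs := csg_le H w
  have hD := DD_le H h.self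
  have hc : Real.exp (-(w.length * S) - D0 d C * |t|) ≤ cc γ S t w := by
    unfold cc
    apply Real.exp_le_exp.2
    have : |DD γ w * t| ≤ D0 d C * |t| := by
      rw [abs_mul]
      exact mul_le_mul_of_nonneg_right hD (abs_nonneg t)
    have := neg_le_of_abs_le this
    linarith
  set E := Real.exp (-(w.length * S) - D0 d C * |t|) with hE
  have hEp : 0 < E := Real.exp_pos _
  have hE2 : Real.exp (-(2 * (w.length * S)) - 2 * (D0 d C * |t|)) = E ^ 2 := by
    rw [hE, ← Real.exp_nat_mul]
    push_cast
    ring_nf
  rw [hE2]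
  have hsg : E * sg w ≤ C := by
    refine le_trans ?_ hs
    exact mul_le_mul_of_nonneg_right hc (sg_nonneg w)
  unfold mu
  have h4 : (rr w).1 * (rr w).2 ≤ sg w ^ 2 := by rw [← h3]; nlinarith
  have h5 : E ^ 2 * ((rr w).1 * (rr w).2) ≤ C ^ 2 := by
    calc E ^ 2 * ((rr w).1 * (rr w).2) ≤ E ^ 2 * sg w ^ 2 :=
          mul_le_mul_of_nonneg_left h4 (by positivity)
      _ = (E * sg w) ^ 2 := by ring
      _ ≤ C ^ 2 := by
          apply pow_le_pow_left₀ _ hsg
          exact mul_nonneg hEp.le (sg_nonneg w)
  rw [div_le_div_iff₀ (by positivity) (mul_pos h1 h2)]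
  linarith

/-- pigeonhole: a repeated factor -/
lemma exists_repeat (H : Core γ S t d C) {N : ℕ} (hN : D0 d C < N * γ)
    (hN1 : D0 d C < N * (1 - γ)) {x : ℕ → Bool} {Q L : ℕ}
    (hgood : ∀ i < Q, Good γ S t C (fac x i L))
    (hbig : ((N : ℝ) / (N + 1)) ^ (L / N) <
      Q * (Real.exp (-(2 * (L * S)) - 2 * (D0 d C * |t|)) / C ^ 2)) :
    ∃ i j, i < j ∧ j < Q ∧ fac x i L = fac x j L := by
  classical
  by_contra hcon
  push Not at hcon
  have hinj : Set.InjOn (fun i => fac x i L) (Finset.range Q : Set ℕ) := by
    intro i hi j hj hij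
    rw [Finset.coe_range, Set.mem_Iio] at hi hj
    rcases lt_trichotomy i j with h | h | h
    · exact absurd hij (hcon i j h hj)
    · exact h
    · exact absurd hij.symm (hcon j i h hi)
  set F := (Finset.range Q).image (fun i => fac x i L) with hF
  have hcard : F.card = Q := by rw [hF, Finset.card_image_of_injOn hinj, Finset.card_range]
  have h1 := sum_le_T (g := gm γ S t C) gm_nonneg L [] F (fun w hw => by
    rw [hF, Finset.mem_image] at hw
    obtain ⟨i, _, rfl⟩ := hw
    exact ⟨_, length_fac x i L, by simp⟩)
  have h2 : (Q : ℝ) * (Real.exp (-(2 * (L * S)) - 2 * (D0 d C * |t|)) / C ^ 2) ≤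
      ∑ w ∈ F, gm γ S t C w := by
    rw [← hcard, ← nsmul_eq_mul]
    refine Finset.card_nsmul_le_sum F _ _ fun w hw => ?_
    rw [hF, Finset.mem_image] at hw
    obtain ⟨i, hi, rfl⟩ := hw
    have hg := hgood i (Finset.mem_range.1 hi)
    have := mu_ge H hg
    rw [length_fac] at this
    unfold gm
    rw [if_pos hg]
    exact this
  have h3 := T_decay H hN hN1 (L / N) (L % N) []
  rw [Nat.div_add_mod' L N, mu_nil, mul_one] at h3
  linarith

end

end Pool.Agent.Q120.JS
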