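import Pool.Agent.Q120.JS.Close

/-!
# The end of the argument, helper file
-/

set_option autoImplicit false

namespace Pool.Agent.Q120.JS

open Matrix Finset Filter Topology

/-- infinitely many good denominators -/
lemma best_denominators {γ : ℝ} (hγ : Irrational γ) (n0 : ℕ) : ∃ Q : ℕ, n0 < Q ∧
    ∀ q : ℕ, 1 ≤ q → q < Q → ∀ p : ℤ, 1 / (2 * (Q : ℝ)) ≤ |q * γ - p| := by
  classical
  set δ : ℕ → ℝ := fun q => |q * γ - round ((q : ℝ) * γ)| with hδ
  have hδle : ∀ (q : ℕ) (p : ℤ), δ q ≤ |q * γ - p| := fun q p => round_le _ p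
  have hδpos : ∀ q : ℕ, 1 ≤ q → 0 < δ q := by
    intro q hq
    rw [hδ]
    simp only
    rw [abs_pos, sub_ne_zero]
    have : Irrational ((q : ℝ) * γ) := hγ.natCast_mul (by omega)
    exact this.ne_int _
  obtain ⟨q1, hq1, hmin⟩ := Finset.exists_min_image (Finset.Icc 1 (max n0 1)) δ
    ⟨1, by rw [Finset.mem_Icc]; omega⟩
  rw [Finset.mem_Icc] at hq1
  have hm : 0 < δ q1 := hδpos q1 hq1.1
  have hex : ∃ Q : ℕ, 1 ≤ Q ∧ δ Q < δ q1 := by
    obtain ⟨K, hK⟩ := exists_nat_gt (1 / δ q1)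
    have hK0 : 0 < K := by
      have h1 : (0 : ℝ) < K := lt_trans (by positivity) hK
      exact_mod_cast h1
    obtain ⟨k, hk0, hkK, hk⟩ := Real.exists_nat_abs_mul_sub_round_le γ hK0
    refine ⟨k, hk0, ?_⟩
    have h2 : 1 / ((K : ℝ) + 1) < δ q1 := by
      rw [div_lt_iff₀ hm] at hK
      rw [div_lt_iff₀ (by positivity)]
      nlinarith
    exact lt_of_le_of_lt hk h2
  set Q := Nat.find hex with hQ
  obtain ⟨hQ1, hQm⟩ := Nat.find_spec hex
  have hlow : ∀ q : ℕ, 1 ≤ q → q < Q → δ q1 ≤ δ q := by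
    intro q hq hqQ
    have := Nat.find_min hex hqQ
    push Not at this
    exact this hq
  have hQn : max n0 1 < Q := by
    by_contra hc
    push Not at hc
    have := hmin Q (by rw [Finset.mem_Icc]; exact ⟨hQ1, hc⟩)
    linarith
  have hq1Q : q1 < Q := lt_of_le_of_lt hq1.2 hQn
  have hQr : (0 : ℝ) < Q := by exact_mod_cast (by omega : 0 < Q)
  have hq1r : (0 : ℝ) < q1 := by exact_mod_cast (by omega : 0 < q1)
  have hq1Qr : (q1 : ℝ) < Q := by exact_mod_cast hq1Q
  have hmain : 1 / (2 * (Q : ℝ)) ≤ δ q1 := by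
    set P := round ((Q : ℝ) * γ) with hP
    set p1 := round ((q1 : ℝ) * γ) with hp1
    have hδQ : δ Q = |Q * γ - P| := rfl
    have hδq1 : δ q1 = |q1 * γ - p1| := rfl
    have hδ0 : 0 ≤ δ Q := abs_nonneg _
    have hZ : ((q1 * P - p1 * Q : ℤ) : ℝ) = -(q1 * (Q * γ - P)) + Q * (q1 * γ - p1) := by
      push_cast
      ring
    have hb : |((q1 * P - p1 * Q : ℤ) : ℝ)| ≤ q1 * δ Q + Q * δ q1 := by
      rw [hZ]
      refine (abs_add_le _ _).trans ?_
      rw [abs_neg, abs_mul, abs_mul, ← hδQ, ← hδq1, abs_of_pos hq1r, abs_of_pos hQr]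
    have hlt : q1 * δ Q < Q * δ q1 := by nlinarith
    have hne : (q1 * P - p1 * Q : ℤ) ≠ 0 := by
      intro h0
      rw [h0, Int.cast_zero] at hZ
      have h1 : q1 * (Q * γ - P) = Q * (q1 * γ - p1) := by linarith
      have h2 : |q1 * (Q * γ - P)| = |Q * (q1 * γ - p1)| := by rw [h1]
      rw [abs_mul, abs_mul, ← hδQ, ← hδq1, abs_of_pos hq1r, abs_of_pos hQr] at h2
      linarith
    have h1 : (1 : ℝ) ≤ |((q1 * P - p1 * Q : ℤ) : ℝ)| := by
      rw [← Int.cast_abs]
      exact_mod_cast Int.one_le_abs hne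
    rw [div_le_iff₀ (by positivity)]
    nlinarith
  exact ⟨Q, lt_of_le_of_lt (le_max_left _ _) hQn, fun q hq hqQ p =>
    hmain.trans ((hlow q hq hqQ).trans (hδle q p))⟩

lemma exists_L {Y S : ℝ} (hY : 1 ≤ Y) (hS : 0 < S) : ∃ L : ℕ, Y < Real.exp (2 * (L * S)) ∧
    Real.exp (2 * (L * S)) ≤ Y * Real.exp (2 * S) := by
  have hYp : 0 < Y := by linarith
  have hl : 0 ≤ Real.log Y / (2 * S) := div_nonneg (Real.log_nonneg hY) (by positivity)
  refine ⟨⌊Real.log Y / (2 * S)⌋₊ + 1, ?_, ?_⟩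
  · have h1 := Nat.lt_floor_add_one (Real.log Y / (2 * S))
    rw [div_lt_iff₀ (by positivity)] at h1
    rw [← Real.log_lt_iff_lt_exp hYp]
    push_cast
    linarith
  · have h1 := Nat.floor_le hl
    rw [le_div_iff₀ (by positivity)] at h1
    have h2 : Real.exp (2 * (((⌊Real.log Y / (2 * S)⌋₊ + 1 : ℕ) : ℝ) * S)) ≤
        Real.exp (Real.log Y + 2 * S) := by
      apply Real.exp_le_exp.2
      push_cast
      linarith
    rwa [Real.exp_add, Real.exp_log hYp] at h2

section

variable {γ S t d C : ℝ}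

lemma cc_le (H : Core γ S t d C) {w : List Bool} (h : |DD γ w| ≤ D0 d C) :
    cc γ S t w ≤ Real.exp (-(w.length * S) + D0 d C * |t|) := by
  unfold cc
  apply Real.exp_le_exp.2
  have h1 : |DD γ w * t| ≤ D0 d C * |t| := by
    rw [abs_mul]
    exact mul_le_mul_of_nonneg_right h (abs_nonneg t)
  have h2 := le_of_abs_le h1
  have := H.hS
  linarith

lemma small_of_exp {d D D1 X : ℝ} (hd : 0 < d) (hD : |D| ≤ D1) (hX : 0 ≤ X)
    (h : 1 - X ≤ Real.exp (-(d * |D|))) : |D| ≤ (1 + d * D1) / d * X := by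
  set y := d * |D| with hy
  have hy0 : 0 ≤ y := mul_nonneg hd.le (abs_nonneg D)
  have h1 : Real.exp (-y) * (1 + y) ≤ 1 := by
    have h2 := Real.add_one_le_exp y
    have h3 : Real.exp (-y) * Real.exp y = 1 := by rw [← Real.exp_add]; simp
    have h4 := Real.exp_pos (-y)
    nlinarith
  have h2 : (1 - X) * (1 + y) ≤ 1 := by nlinarith
  have h3 : y ≤ X * (1 + y) := by linarith
  have h4 : y ≤ d * D1 := mul_le_mul_of_nonneg_left hD hd.le
  have h5 : y ≤ X * (1 + d * D1) := h3.trans (mul_le_mul_of_nonneg_left (by linarith) hX)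
  rw [div_mul_eq_mul_div, le_div_iff₀ hd]
  linarith

theorem Core.absurd (H : Core γ S t d C) : False := by
  have hC := H.hC
  have hC0 : 0 < C := by linarith
  have hd := H.hd
  have hS := H.hS
  have hD0 := D0_nonneg H
  set E := D0 d C with hE
  -- N
  obtain ⟨N, hN⟩ : ∃ N : ℕ, E < N * γ ∧ E < N * (1 - γ) := by
    obtain ⟨N, hN⟩ := exists_nat_gt (max (E / γ) (E / (1 - γ)))
    have h1 := lt_of_le_of_lt (le_max_left _ _) hN
    have h2 := lt_of_le_of_lt (le_max_right _ _) hN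
    rw [div_lt_iff₀ H.hγ0] at h1
    rw [div_lt_iff₀ (by linarith [H.hγ1])] at h2
    exact ⟨N, h1, h2⟩
  -- q0
  obtain ⟨q0, hq0⟩ : ∃ q0 : ℕ, ∀ q : ℕ, q0 ≤ q →
      Real.exp (-(q * S) + E * |t|) ≤ 1 / 6 := by
    have h1 : Tendsto (fun q : ℕ => -((q : ℝ) * S) + E * |t|) atTop atBot := by
      apply tendsto_atBot_add_const_right
      rw [tendsto_neg_atBot_iff]
      exact tendsto_natCast_atTop_atTop.atTop_mul_const hS
    have h2 := Real.tendsto_exp_atBot.comp h1
    have h3 := h2.eventually (gt_mem_nhds (show (0 : ℝ) < 1 / 6 by norm_num))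
    obtain ⟨q0, h⟩ := eventually_atTop.1 h3
    exact ⟨q0, fun q hq => (h q hq).le⟩
  -- μ
  obtain ⟨Q1, hQ1, hQ1b⟩ := best_denominators H.irr (q0 + 1)
  have hQ1r : (0 : ℝ) < Q1 := by exact_mod_cast (by omega : 0 < Q1)
  set μ : ℝ := 1 / (2 * (Q1 : ℝ)) with hμ
  have hμ0 : 0 < μ := by positivity
  set ω := 1 - Real.exp (-(d * μ)) with hω
  have hω0 : 0 < ω := by
    have : Real.exp (-(d * μ)) < 1 := by
      rw [Real.exp_lt_one_iff]
      have := mul_pos hd hμ0
      linarith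
    linarith
  have hω1 : ω < 1 := by
    have := Real.exp_pos (-(d * μ))
    linarith
  set B := Real.exp (2 * (E * |t|)) with hB
  have hB0 : 0 < B := Real.exp_pos _
  set Cx := (1 + d * E) / d with hCx
  have hCx0 : 0 < Cx := by positivity
  set Kc := Cx * (40 * C ^ 3) * B with hKc
  have hKc0 : 0 < Kc := by positivity
  -- smallness of Δ
  set δ0 := min (ω / (16 * C ^ 2)) ((ω / 4) ^ 2 / (12 * C ^ 3)) with hδ0
  have hδ00 : 0 < δ0 := lt_min (by positivity) (by positivity)
  obtain ⟨L1, hL1⟩ : ∃ L1 : ℕ, ∀ L : ℕ, L1 ≤ L → B * Real.exp (-(2 * (L * S))) ≤ δ0 := by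
    have h1 : Tendsto (fun L : ℕ => -(2 * ((L : ℝ) * S))) atTop atBot := by
      rw [tendsto_neg_atBot_iff]
      exact (tendsto_natCast_atTop_atTop.atTop_mul_const hS).const_mul_atTop two_pos
    have h2 := (Real.tendsto_exp_atBot.comp h1).const_mul B
    rw [mul_zero] at h2
    obtain ⟨L1, h⟩ := eventually_atTop.1 (h2.eventually (gt_mem_nhds hδ00))
    exact ⟨L1, fun L hL => (h L hL).le⟩
  set ρ0 := 1 / (8 * Kc * Real.exp (2 * S) * B * C ^ 2) with hρ0
  have hρ00 : 0 < ρ0 := by positivity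
  have hNpos : 0 < N := by
    rcases Nat.eq_zero_or_pos N with h | h
    · have h1 := hN.1
      rw [h] at h1
      simp only [Nat.cast_zero, zero_mul] at h1
      linarith
    · exact h
  obtain ⟨L2, hL2⟩ : ∃ L2 : ℕ, ∀ L : ℕ, L2 ≤ L → ((N : ℝ) / (N + 1)) ^ (L / N) < ρ0 := by
    have h1 : Tendsto (fun j : ℕ => ((N : ℝ) / (N + 1)) ^ j) atTop (𝓝 0) := by
      apply tendsto_pow_atTop_nhds_zero_of_lt_one (by positivity)
      rw [div_lt_one (by positivity)]
      linarith
    have h2 := h1.comp (Nat.tendsto_div_const_atTop hNpos.ne')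
    obtain ⟨L2, h⟩ := eventually_atTop.1 (h2.eventually (gt_mem_nhds hρ00))
    exact ⟨L2, fun L hL => h L hL⟩
  -- choice of Q
  obtain ⟨n0, hn0⟩ := exists_nat_gt (max (1 / (8 * Kc))
    (Real.exp (2 * (((max L1 L2 : ℕ) : ℝ) * S)) / (8 * Kc)))
  obtain ⟨Q, hQn, hQb⟩ := best_denominators H.irr (max n0 1)
  have hQ1' : 1 < Q := lt_of_le_of_lt (le_max_right _ _) hQn
  have hQr : (0 : ℝ) < Q := by exact_mod_cast (by omega : 0 < Q)
  have hn0Q : (n0 : ℝ) < Q := by exact_mod_cast lt_of_le_of_lt (le_max_left _ _) hQn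
  have hY1 : 1 ≤ 8 * Q * Kc := by
    have h1 := lt_of_le_of_lt (le_max_left _ _) hn0
    rw [div_lt_iff₀ (by positivity)] at h1
    nlinarith
  have hY2 : Real.exp (2 * (((max L1 L2 : ℕ) : ℝ) * S)) ≤ 8 * Q * Kc := by
    have h1 := lt_of_le_of_lt (le_max_right _ _) hn0
    rw [div_lt_iff₀ (by positivity)] at h1
    nlinarith
  obtain ⟨L, hLa, hLb⟩ := exists_L hY1 hS
  have hLL : max L1 L2 < L := by
    have h1 := lt_of_le_of_lt hY2 hLa
    rw [Real.exp_lt_exp] at h1
    have h2 : ((max L1 L2 : ℕ) : ℝ) * S < L * S := by linarith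
    have h3 := lt_of_mul_lt_mul_right h2 hS.le
    exact_mod_cast h3
  have hΔL := hL1 L (by omega)
  have hθL := hL2 L (by omega)
  -- choice of ε
  set ε := min (min (1 / 8) (ω / 4)) (1 / (8 * Q * Cx)) with hε
  have hε0 : 0 < ε := lt_min (lt_min (by norm_num) (by positivity)) (by positivity)
  have hε8 : ε ≤ 1 / 8 := (min_le_left _ _).trans (min_le_left _ _)
  have hεω : ε ≤ ω / 4 := (min_le_left _ _).trans (min_le_right _ _)
  have hεQ : ε ≤ 1 / (8 * Q * Cx) := min_le_right _ _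
  obtain ⟨x, z, hz0, hz1, hz2⟩ := exists_extremal H (n := Q + L) (by omega) hε0 (by linarith)
  have htr : Traj γ S t ε (Q + L) x z := ⟨hz0, hz1, hz2⟩
  have hfacge : ∀ i m, i + m ≤ Q + L → 1 / (2 * C) ≤ cc γ S t (fac x i m) * sg (fac x i m) :=
    fun i m h => htr.fac_ge H (by linarith) h
  have hgood : ∀ i < Q, Good γ S t C (fac x i L) := by
    intro i hi p u s e
    have hlen : L = p.length + u.length + s.length := by
      have := congrArg List.length e
      rw [length_fac] at this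
      simp only [List.length_append] at this
      exact this
    have e2 : fac x i L = fac x i p.length ++ fac x (i + p.length) u.length ++
        fac x (i + p.length + u.length) s.length := by
      rw [hlen, fac_add, fac_add]
      simp [add_assoc]
    rw [e2] at e
    have e3 := List.append_inj e (by simp [length_fac])
    have e4 := List.append_inj e3.1 (by simp [length_fac])
    rw [← e4.2]
    exact hfacge _ _ (by omega)
  have hpig : ((N : ℝ) / (N + 1)) ^ (L / N) <
      Q * (Real.exp (-(2 * (L * S)) - 2 * (D0 d C * |t|)) / C ^ 2) := by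
    refine lt_of_lt_of_le hθL ?_
    have e1 : Real.exp (-(2 * (L * S)) - 2 * (D0 d C * |t|)) =
        1 / (Real.exp (2 * (L * S)) * B) := by
      rw [hB, ← Real.exp_add, one_div, ← Real.exp_neg]
      congr 1
      rw [hE]
      ring
    rw [e1, hρ0]
    have hX := Real.exp_pos (2 * ((L : ℝ) * S))
    have e2 : (Q : ℝ) * (1 / (Real.exp (2 * (L * S)) * B) / C ^ 2) =
        Q / (Real.exp (2 * (L * S)) * B * C ^ 2) := by field_simp
    rw [e2, div_le_div_iff₀ (by positivity) (by positivity)]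
    have h3 : Real.exp (2 * (L * S)) * (B * C ^ 2) ≤
        (8 * Q * Kc * Real.exp (2 * S)) * (B * C ^ 2) :=
      mul_le_mul_of_nonneg_right hLb (by positivity)
    linarith
  obtain ⟨i, j, hij, hjQ, hrep⟩ := exists_repeat H hN.1 hN.2 hgood hpig
  obtain ⟨q, hq⟩ := Nat.exists_eq_add_of_le hij.le
  have hq1 : 1 ≤ q := by omega
  set Δ := cc γ S t (fac x i L) ^ 2 with hΔ
  have hΔ0 : 0 ≤ Δ := by positivity
  have hDu := DD_le H (hfacge i L (by omega))
  have hΔB : Δ ≤ B * Real.exp (-(2 * (L * S))) := by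
    have h1 := cc_le H hDu
    rw [length_fac] at h1
    calc Δ ≤ Real.exp (-(L * S) + D0 d C * |t|) ^ 2 :=
          pow_le_pow_left₀ (cc_pos _).le h1 2
      _ = B * Real.exp (-(2 * (L * S))) := by
          rw [hB, ← Real.exp_add, ← Real.exp_nat_mul, hE]
          congr 1
          push_cast
          ring
  have hΔδ : Δ ≤ δ0 := hΔB.trans hΔL
  have hΔω : 4 * C ^ 2 * Δ ≤ ω / 4 := by
    have h1 := hΔδ.trans (min_le_left _ _)
    rw [le_div_iff₀ (by positivity)] at h1
    linarith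
  have hΔs : Real.sqrt (12 * C ^ 3 * Δ) ≤ ω / 4 := by
    have h1 := hΔδ.trans (min_le_right _ _)
    rw [le_div_iff₀ (by positivity)] at h1
    apply Real.sqrt_le_iff.2
    constructor
    · positivity
    · linarith
  obtain ⟨c1, c2⟩ := closing H htr (by linarith) hq (by omega) hrep hΔ (by linarith)
  set g := fac x (i + L) q with hg
  have hDg := DD_le H (hfacge (i + L) q (by omega))
  rw [← hg] at hDg
  have hDint : |DD γ g| = |q * γ - ((g.count true : ℤ) : ℝ)| := by
    unfold DD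
    rw [hg, length_fac, ← hg, abs_sub_comm]
    congr 1
    push_cast
    ring
  have hDQ : 1 / (2 * (Q : ℝ)) ≤ |DD γ g| := by
    rw [hDint]
    exact hQb q hq1 (by omega) _
  rcases le_or_gt q0 q with hqq | hqq
  · have h6 : cc γ S t g ≤ 1 / 6 := by
      have h1 := cc_le H hDg
      rw [hg, length_fac, ← hg] at h1
      exact h1.trans (hq0 q hqq)
    have h7 := c2 h6
    have hX : 0 ≤ ε + 40 * C ^ 3 * Δ := by positivity
    have h8 : 1 - (ε + 40 * C ^ 3 * Δ) ≤ Real.exp (-(d * |DD γ g|)) := by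
      refine le_trans ?_ h7
      have : C ^ 2 * Δ ≤ C ^ 3 * Δ := by
        refine mul_le_mul_of_nonneg_right ?_ hΔ0
        exact pow_le_pow_right₀ hC (by norm_num)
      linarith
    have h9 := small_of_exp hd hDg hX h8
    rw [← hE, ← hCx] at h9
    have h10 : Cx * ε ≤ 1 / (8 * Q) := by
      calc Cx * ε ≤ Cx * (1 / (8 * Q * Cx)) := mul_le_mul_of_nonneg_left hεQ hCx0.le
        _ = 1 / (8 * Q) := by field_simp
    have h11 : Cx * (40 * C ^ 3 * Δ) < 1 / (8 * Q) := by
      have h12 : Cx * (40 * C ^ 3 * Δ) ≤ Cx * (40 * C ^ 3 * (B * Real.exp (-(2 * (L * S))))) := by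
        refine mul_le_mul_of_nonneg_left ?_ hCx0.le
        exact mul_le_mul_of_nonneg_left hΔB (by positivity)
      have h13 : Cx * (40 * C ^ 3 * (B * Real.exp (-(2 * (L * S))))) =
          Kc / Real.exp (2 * (L * S)) := by
        rw [Real.exp_neg, hKc]
        field_simp
      rw [h13] at h12
      refine lt_of_le_of_lt h12 ?_
      rw [div_lt_div_iff₀ (Real.exp_pos _) (by positivity)]
      linarith
    have h14 : |DD γ g| < 1 / (4 * Q) := by
      have e : (1 : ℝ) / (4 * Q) = 1 / (8 * Q) + 1 / (8 * Q) := by field_simp; norm_num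
      rw [e]
      calc |DD γ g| ≤ Cx * (ε + 40 * C ^ 3 * Δ) := h9
        _ = Cx * ε + Cx * (40 * C ^ 3 * Δ) := by ring
        _ < _ := by linarith
    have h15 : (1 : ℝ) / (4 * Q) ≤ 1 / (2 * Q) := by
      apply div_le_div_of_nonneg_left zero_le_one (by positivity)
      linarith
    linarith
  · have h16 : μ ≤ |DD γ g| := by
      rw [hDint]
      exact hQ1b q hq1 (by omega) _
    have h17 : Real.exp (-(d * |DD γ g|)) ≤ Real.exp (-(d * μ)) := by
      apply Real.exp_le_exp.2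
      have := mul_le_mul_of_nonneg_left h16 hd.le
      linarith
    linarith

end

end Pool.Agent.Q120.JS
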