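import Pool.Agent.Q120.JS.Rho
import Pool.Agent.Q120.JS.End

/-!
# Two parameters with the same irrational ratio, helper file
-/

set_option autoImplicit false

namespace Pool.Agent.Q120.JS

open Matrix Finset Filter Topology

/-- logarithmic extremality -/
def LogExt {α : ℝ} (hα : 0 < α) (x : ℕ → Bool) : Prop :=
  Tendsto (fun n : ℕ => Real.log (val α (fac x 0 n)) / n) atTop (𝓝 (FF hα))

lemma exists_logExt {α : ℝ} (hα : 0 < α) : ∃ x : ℕ → Bool, LogExt hα x := by
  obtain ⟨x, hx⟩ := exists_long hα
  have hC := CC_pos hα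
  refine ⟨x, ?_⟩
  have hlow : Tendsto (fun n : ℕ => FF hα - Real.log (CC hα ^ 2) / n) atTop (𝓝 (FF hα)) := by
    have := (tendsto_const_div_atTop_nhds_zero_nat (Real.log (CC hα ^ 2))).const_sub (FF hα)
    simpa using this
  have hup : Tendsto (fun n : ℕ => FF hα + Real.log (CC hα) / n) atTop (𝓝 (FF hα)) := by
    have := (tendsto_const_div_atTop_nhds_zero_nat (Real.log (CC hα))).const_add (FF hα)
    simpa using this
  refine tendsto_of_tendsto_of_tendsto_of_le_of_le' hlow hup ?_ ?_
  · filter_upwards [eventually_gt_atTop 0] with n hn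
    have hn' : (0 : ℝ) < n := by exact_mod_cast hn
    have h1 := Real.log_le_log (by positivity) (hx n)
    rw [Real.log_div (Real.exp_pos _).ne' (by positivity), Real.log_exp] at h1
    rw [le_div_iff₀ hn', sub_mul, div_mul_cancel₀ _ hn'.ne']
    linarith
  · filter_upwards [eventually_gt_atTop 0] with n hn
    have hn' : (0 : ℝ) < n := by exact_mod_cast hn
    have h1 := Real.log_le_log (val_pos hα _) (val_le' hα (fac x 0 n))
    rw [Real.log_mul hC.ne' (Real.exp_pos _).ne', Real.log_exp, length_fac] at h1
    rw [div_le_iff₀ hn', add_mul, div_mul_cancel₀ _ hn'.ne']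
    linarith

/-- the ratio of ones -/
def RatioTo (x : ℕ → Bool) (γ : ℝ) : Prop :=
  Tendsto (fun n : ℕ => (((fac x 0 n).count true : ℕ) : ℝ) / n) atTop (𝓝 γ)

lemma log_val {α : ℝ} (hα : 0 < α) (w : List Bool) :
    Real.log (val α w) = w.count true * Real.log α + Real.log (sg w) := by
  unfold val
  rw [Real.log_mul (pow_pos hα _).ne' (sg_pos w).ne', Real.log_pow]

lemma sg_limit {α γ : ℝ} (hα : 0 < α) {x : ℕ → Bool} (hx : LogExt hα x) (hr : RatioTo x γ) :
    Tendsto (fun n : ℕ => Real.log (sg (fac x 0 n)) / n) atTop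
      (𝓝 (FF hα - γ * Real.log α)) := by
  have h := hx.sub (hr.mul_const (Real.log α))
  refine h.congr fun n => ?_
  rw [log_val hα]
  ring

lemma compare {α β γ : ℝ} (hα : 0 < α) (hβ : 0 < β) {x : ℕ → Bool} (hx : LogExt hα x)
    (hr : RatioTo x γ) : FF hα - γ * Real.log α ≤ FF hβ - γ * Real.log β := by
  have h1 := (sg_limit hα hx hr).add (hr.mul_const (Real.log β))
  have hup : Tendsto (fun n : ℕ => FF hβ + Real.log (CC hβ) / n) atTop (𝓝 (FF hβ)) := by
    have := (tendsto_const_div_atTop_nhds_zero_nat (Real.log (CC hβ))).const_add (FF hβ)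
    simpa using this
  have h2 : FF hα - γ * Real.log α + γ * Real.log β ≤ FF hβ := by
    refine le_of_tendsto_of_tendsto h1 hup ?_
    filter_upwards [eventually_gt_atTop 0] with n hn
    have hn' : (0 : ℝ) < n := by exact_mod_cast hn
    have h3 := Real.log_le_log (val_pos hβ _) (val_le' hβ (fac x 0 n))
    rw [Real.log_mul (CC_pos hβ).ne' (Real.exp_pos _).ne', Real.log_exp, length_fac,
      log_val hβ] at h3
    have e : Real.log (sg (fac x 0 n)) / n +
        (((fac x 0 n).count true : ℕ) : ℝ) / n * Real.log β =
        (((fac x 0 n).count true : ℕ) * Real.log β + Real.log (sg (fac x 0 n))) / n := by ring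
    rw [e, div_le_iff₀ hn', add_mul, div_mul_cancel₀ _ hn'.ne']
    linarith
  linarith

lemma ratio_range {x : ℕ → Bool} {γ : ℝ} (hr : RatioTo x γ) (hγ : Irrational γ) :
    0 < γ ∧ γ < 1 := by
  have h0 : 0 ≤ γ := ge_of_tendsto' hr fun n => div_nonneg (Nat.cast_nonneg _) (Nat.cast_nonneg _)
  have h1 : γ ≤ 1 := by
    refine le_of_tendsto' hr fun n => ?_
    rcases Nat.eq_zero_or_pos n with h | h
    · subst h
      simp
    · have hn' : (0 : ℝ) < n := by exact_mod_cast h
      rw [div_le_one hn']
      have := List.count_le_length (a := true) (l := fac x 0 n)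
      rw [length_fac] at this
      exact_mod_cast this
  exact ⟨lt_of_le_of_ne h0 (fun h => hγ.ne_zero h.symm), lt_of_le_of_ne h1 hγ.ne_one⟩

/-- the contradiction -/
theorem no_two {a b γ : ℝ} (ha : 0 < a) (hb : 0 < b) (hab : a < b) (hb1 : b ≤ 1)
    (hγ : Irrational γ) {x y : ℕ → Bool} (hx : LogExt ha x) (hxr : RatioTo x γ)
    (hy : LogExt hb y) (hyr : RatioTo y γ) : False := by
  obtain ⟨hγ0, hγ1⟩ := ratio_range hxr hγ
  have hS1 := compare ha hb hx hxr
  have hS2 := compare hb ha hy hyr
  set S := FF ha - γ * Real.log a with hS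
  have hSb : FF hb - γ * Real.log b = S := le_antisymm hS2 hS1
  have hla : Real.log a < 0 := Real.log_neg ha (by linarith)
  have hlab : Real.log a < Real.log b := Real.log_lt_log ha hab
  have hSpos : 0 < S := by
    have := FF_nonneg ha
    nlinarith
  set t := (Real.log a + Real.log b) / 2 with ht
  set d := (Real.log b - Real.log a) / 2 with hd
  have hdpos : 0 < d := by rw [hd]; linarith
  set C := max 1 (max (CC ha) (CC hb)) with hC
  have hC1 : 1 ≤ C := le_max_left _ _
  have hCa : CC ha ≤ C := (le_max_left _ _).trans (le_max_right _ _)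
  have hCb : CC hb ≤ C := (le_max_right _ _).trans (le_max_right _ _)
  -- a general transfer
  have key : ∀ (w : List Bool) (v K : ℝ), 0 ≤ v →
      a ^ (w.count true) * v ≤ K * Real.exp (w.length * FF ha) →
      b ^ (w.count true) * v ≤ K * Real.exp (w.length * FF hb) → 0 ≤ K →
      cc γ S t w * v ≤ K * Real.exp (-(d * |DD γ w|)) := by
    intro w v K hv h1 h2 hK
    have ea : ∀ (α : ℝ) (hα : 0 < α), FF hα - γ * Real.log α = S →
        α ^ (w.count true) * v ≤ K * Real.exp (w.length * FF hα) →
        cc γ S t w * v ≤ K * Real.exp (DD γ w * (t - Real.log α)) := by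
      intro α hα hF h
      have e1 : α ^ (w.count true) = Real.exp (w.count true * Real.log α) := by
        rw [mul_comm, Real.exp_mul, Real.exp_log hα, Real.rpow_natCast]
      have e2 : cc γ S t w = Real.exp (w.count true * Real.log α) *
          Real.exp (-(w.length * FF hα) + DD γ w * (t - Real.log α)) := by
        unfold cc
        rw [← Real.exp_add]
        congr 1
        have : FF hα = S + γ * Real.log α := by linarith
        rw [this]
        unfold DD
        ring
      rw [e1] at h
      rw [e2]
      have h3 := mul_le_mul_of_nonneg_right h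
        (Real.exp_pos (-(w.length * FF hα) + DD γ w * (t - Real.log α))).le
      have e3 : K * Real.exp (w.length * FF hα) *
          Real.exp (-(w.length * FF hα) + DD γ w * (t - Real.log α)) =
          K * Real.exp (DD γ w * (t - Real.log α)) := by
        rw [mul_assoc, ← Real.exp_add]
        congr 2
        ring
      rw [e3] at h3
      linarith
    rcases le_total 0 (DD γ w) with hD | hD
    · have h3 := ea b hb hSb h2
      have e : DD γ w * (t - Real.log b) = -(d * |DD γ w|) := by
        rw [abs_of_nonneg hD, ht, hd]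
        ring
      rwa [e] at h3
    · have h3 := ea a ha rfl h1
      have e : DD γ w * (t - Real.log a) = -(d * |DD γ w|) := by
        rw [abs_of_nonpos hD, ht, hd]
        ring
      rwa [e] at h3
  have H : Core γ S t d C := by
    refine ⟨hγ0, hγ1, hγ, hSpos, hdpos, hC1, ?_, ?_, ?_⟩
    · intro w
      have h := key w (lam w) 1 (by linarith [one_le_lam w]) (by rw [one_mul]; exact lam_le ha w)
        (by rw [one_mul]; exact lam_le hb w) zero_le_one
      rwa [one_mul] at h
    · intro w
      refine key w (sg w) C (sg_nonneg w) ?_ ?_ (by linarith)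
      · exact (val_le' ha w).trans (mul_le_mul_of_nonneg_right hCa (Real.exp_pos _).le)
      · exact (val_le' hb w).trans (mul_le_mul_of_nonneg_right hCb (Real.exp_pos _).le)
    · refine ⟨x, ?_⟩
      have h1 := sg_limit ha hx hxr
      have h2 := ((hxr.sub_const γ).mul_const t).add (h1.sub_const S)
      have e0 : (γ - γ) * t + (FF ha - γ * Real.log a - S) = 0 := by rw [hS]; ring
      rw [e0] at h2
      refine h2.congr' ?_
      filter_upwards [eventually_gt_atTop 0] with n hn
      have hn' : (n : ℝ) ≠ 0 := by exact_mod_cast hn.ne'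
      rw [Real.log_mul (cc_pos _).ne' (sg_pos _).ne']
      unfold cc
      rw [Real.log_exp, length_fac]
      unfold DD
      rw [length_fac]
      field_simp
      ring
  exact H.absurd

end Pool.Agent.Q120.JS
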