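import Pool.Agent.Q120.JS.Basic

/-!
# The normalised products and the invariant norm, helper file
-/

set_option autoImplicit false

namespace Pool.Agent.Q120.JS

open Matrix Finset Filter Topology

/-- the deviation of a word -/
noncomputable def DD (γ : ℝ) (w : List Bool) : ℝ := w.count true - γ * w.length

/-- the scalar weight -/
noncomputable def cc (γ S t : ℝ) (w : List Bool) : ℝ := Real.exp (-(w.length * S) + DD γ w * t)

/-- the data -/
structure Core (γ S t d C : ℝ) : Prop where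
  hγ0 : 0 < γ
  hγ1 : γ < 1
  irr : Irrational γ
  hS : 0 < S
  hd : 0 < d
  hC : 1 ≤ C
  hlam : ∀ w, cc γ S t w * lam w ≤ Real.exp (-(d * |DD γ w|))
  hsg : ∀ w, cc γ S t w * sg w ≤ C * Real.exp (-(d * |DD γ w|))
  hx : ∃ x : ℕ → Bool, Tendsto (fun n : ℕ =>
    Real.log (cc γ S t (fac x 0 n) * sg (fac x 0 n)) / n) atTop (𝓝 0)

section

variable {γ S t d C : ℝ}

lemma DD_append (u v : List Bool) : DD γ (u ++ v) = DD γ u + DD γ v := by
  unfold DD
  rw [List.count_append, List.length_append]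
  push_cast
  ring

lemma cc_pos (w : List Bool) : 0 < cc γ S t w := Real.exp_pos _

lemma cc_append (u v : List Bool) : cc γ S t (u ++ v) = cc γ S t u * cc γ S t v := by
  unfold cc
  rw [← Real.exp_add, DD_append, List.length_append]
  push_cast
  ring_nf

lemma cc_nil : cc γ S t [] = 1 := by simp [cc, DD]

/-- the normalised product -/
noncomputable def hat (γ S t : ℝ) (w : List Bool) (v : Fin 2 → ℝ) : Fin 2 → ℝ :=
  cc γ S t w • (M w *ᵥ v)

lemma hat_append (u v : List Bool) (z : Fin 2 → ℝ) :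
    hat γ S t (u ++ v) z = hat γ S t v (hat γ S t u z) := by
  unfold hat
  rw [cc_append, M_append, Matrix.mulVec_smul, ← Matrix.mulVec_mulVec, smul_smul, mul_comm]

lemma hat_nil (z : Fin 2 → ℝ) : hat γ S t [] z = z := by
  unfold hat
  rw [cc_nil]
  simp [M]

lemma hat_add (w : List Bool) (u v : Fin 2 → ℝ) :
    hat γ S t w (u + v) = hat γ S t w u + hat γ S t w v := by
  unfold hat
  rw [Matrix.mulVec_add, smul_add]

lemma hat_smul (w : List Bool) (k : ℝ) (v : Fin 2 → ℝ) :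
    hat γ S t w (k • v) = k • hat γ S t w v := by
  unfold hat
  rw [Matrix.mulVec_smul, smul_comm]

lemma hat_nonneg (w : List Bool) {v : Fin 2 → ℝ} (hv : ∀ i, 0 ≤ v i) (i : Fin 2) :
    0 ≤ hat γ S t w v i := by
  unfold hat
  simp only [Pi.smul_apply, smul_eq_mul, Matrix.mulVec, dotProduct, Fin.sum_univ_two]
  have h := cc_pos (γ := γ) (S := S) (t := t) w
  exact mul_nonneg h.le (add_nonneg (mul_nonneg (M_nonneg _ _ _) (hv _))
    (mul_nonneg (M_nonneg _ _ _) (hv _)))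

lemma l1_hat_le (w : List Bool) (v : Fin 2 → ℝ) :
    l1 (hat γ S t w v) ≤ cc γ S t w * sg w * l1 v := by
  unfold hat
  rw [l1_smul, abs_of_pos (cc_pos w), mul_assoc]
  exact mul_le_mul_of_nonneg_left (l1_mulVec w v) (cc_pos w).le

lemma csg_le (H : Core γ S t d C) (w : List Bool) : cc γ S t w * sg w ≤ C := by
  refine (H.hsg w).trans ?_
  have h1 : Real.exp (-(d * |DD γ w|)) ≤ 1 := by
    rw [Real.exp_le_one_iff]
    have := mul_nonneg H.hd.le (abs_nonneg (DD γ w))
    linarith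
  have := H.hC
  nlinarith

lemma l1_hat_le' (H : Core γ S t d C) (w : List Bool) (v : Fin 2 → ℝ) :
    l1 (hat γ S t w v) ≤ C * l1 v :=
  (l1_hat_le w v).trans (mul_le_mul_of_nonneg_right (csg_le H w) (l1_nonneg v))

/-- the invariant norm -/
noncomputable def Nn (γ S t : ℝ) (v : Fin 2 → ℝ) : ℝ := ⨆ w : List Bool, l1 (hat γ S t w v)

lemma Nn_bdd (H : Core γ S t d C) (v : Fin 2 → ℝ) :
    BddAbove (Set.range fun w : List Bool => l1 (hat γ S t w v)) := by
  refine ⟨C * l1 v, ?_⟩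
  rintro _ ⟨w, rfl⟩
  exact l1_hat_le' H w v

lemma l1_le_Nn (H : Core γ S t d C) (v : Fin 2 → ℝ) : l1 v ≤ Nn γ S t v := by
  have := le_ciSup (Nn_bdd H v) []
  rwa [hat_nil] at this

lemma Nn_le (H : Core γ S t d C) (v : Fin 2 → ℝ) : Nn γ S t v ≤ C * l1 v :=
  ciSup_le fun w => l1_hat_le' H w v

lemma Nn_hat (H : Core γ S t d C) (w : List Bool) (v : Fin 2 → ℝ) :
    Nn γ S t (hat γ S t w v) ≤ Nn γ S t v := by
  refine ciSup_le fun u => ?_
  rw [← hat_append]
  exact le_ciSup (Nn_bdd H v) _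

lemma Nn_add (H : Core γ S t d C) (u v : Fin 2 → ℝ) :
    Nn γ S t (u + v) ≤ Nn γ S t u + Nn γ S t v := by
  refine ciSup_le fun w => ?_
  rw [hat_add]
  exact (l1_add _ _).trans (add_le_add (le_ciSup (Nn_bdd H u) w) (le_ciSup (Nn_bdd H v) w))

lemma Nn_smul_le (H : Core γ S t d C) {k : ℝ} (hk : 0 ≤ k) (v : Fin 2 → ℝ) :
    Nn γ S t (k • v) ≤ k * Nn γ S t v := by
  refine ciSup_le fun w => ?_
  rw [hat_smul, l1_smul, abs_of_nonneg hk]
  exact mul_le_mul_of_nonneg_left (le_ciSup (Nn_bdd H v) w) hk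

lemma Nn_nonneg (H : Core γ S t d C) (v : Fin 2 → ℝ) : 0 ≤ Nn γ S t v :=
  (l1_nonneg v).trans (l1_le_Nn H v)

lemma l1_ones (w : List Bool) : l1 (hat γ S t w (fun _ => 1)) = cc γ S t w * sg w := by
  unfold hat
  rw [l1_smul, abs_of_pos (cc_pos w)]
  congr 1
  unfold l1 sg
  simp only [Matrix.mulVec, dotProduct, Fin.sum_univ_two, mul_one]
  rw [abs_of_nonneg (add_nonneg (M_nonneg _ _ _) (M_nonneg _ _ _)),
    abs_of_nonneg (add_nonneg (M_nonneg _ _ _) (M_nonneg _ _ _))]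

/-- step 2: long words which almost preserve the norm of some vector -/
lemma exists_extremal (H : Core γ S t d C) {n : ℕ} (hn : 1 ≤ n) {ε : ℝ} (hε : 0 < ε)
    (hε2 : ε ≤ 1 / 2) : ∃ (x : ℕ → Bool) (z : Fin 2 → ℝ), (∀ i, 0 ≤ z i) ∧ Nn γ S t z ≤ 1 ∧
      1 - ε < Nn γ S t (hat γ S t (fac x 0 n) z) := by
  by_contra hcon
  push Not at hcon
  have hθ0 : 0 < 1 - ε := by linarith
  have key : ∀ (x : ℕ → Bool) (z : Fin 2 → ℝ), (∀ i, 0 ≤ z i) →
      Nn γ S t (hat γ S t (fac x 0 n) z) ≤ (1 - ε) * Nn γ S t z := by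
    intro x z hz
    rcases (Nn_nonneg H z).eq_or_lt with h0 | h0
    · have := Nn_hat H (fac x 0 n) z
      rw [← h0] at this ⊢
      simpa using this
    · have h1 := hcon x ((Nn γ S t z)⁻¹ • z)
        (fun i => by
          simp only [Pi.smul_apply, smul_eq_mul]
          exact mul_nonneg (inv_nonneg.2 h0.le) (hz i))
        ((Nn_smul_le H (inv_nonneg.2 h0.le) z).trans (by rw [inv_mul_cancel₀ h0.ne']))
      have h2 : z = (Nn γ S t z) • ((Nn γ S t z)⁻¹ • z) := by
        rw [smul_smul, mul_inv_cancel₀ h0.ne', one_smul]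
      calc Nn γ S t (hat γ S t (fac x 0 n) z)
          = Nn γ S t (Nn γ S t z • hat γ S t (fac x 0 n) ((Nn γ S t z)⁻¹ • z)) := by
            rw [← hat_smul, ← h2]
        _ ≤ Nn γ S t z * Nn γ S t (hat γ S t (fac x 0 n) ((Nn γ S t z)⁻¹ • z)) :=
            Nn_smul_le H h0.le _
        _ ≤ Nn γ S t z * (1 - ε) := mul_le_mul_of_nonneg_left h1 h0.le
        _ = _ := mul_comm _ _
  obtain ⟨x, hx⟩ := H.hx
  have hiter : ∀ j : ℕ, Nn γ S t (hat γ S t (fac x 0 (j * n)) (fun _ => 1)) ≤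
      (1 - ε) ^ j * (2 * C) := by
    intro j
    induction j with
    | zero =>
      rw [Nat.zero_mul, fac_zero, hat_nil, pow_zero, one_mul]
      have := Nn_le H (fun _ => 1)
      have e : l1 (fun _ => (1 : ℝ)) = 2 := by unfold l1; norm_num
      rw [e] at this
      linarith
    | succ j ih =>
      rw [Nat.succ_mul, fac_add, hat_append, Nat.zero_add, fac_shift x (j * n)]
      refine (key _ _ (fun i => hat_nonneg _ (fun _ => zero_le_one) i)).trans ?_
      rw [pow_succ]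
      nlinarith
  have hlog : ∀ j : ℕ, Real.log (cc γ S t (fac x 0 (j * n)) * sg (fac x 0 (j * n))) ≤
      j * Real.log (1 - ε) + Real.log (2 * C) := by
    intro j
    have h1 := hiter j
    have h2 := (l1_le_Nn H _).trans h1
    rw [l1_ones] at h2
    have h3 := Real.log_le_log (mul_pos (cc_pos _) (sg_pos _)) h2
    rw [Real.log_mul (pow_pos hθ0 j).ne' (by have := H.hC; positivity), Real.log_pow] at h3
    exact h3
  have hn' : (0 : ℝ) < n := by exact_mod_cast (by omega : 0 < n)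
  have hsub : Tendsto (fun j : ℕ =>
      Real.log (cc γ S t (fac x 0 (j * n)) * sg (fac x 0 (j * n))) / ((j * n : ℕ) : ℝ)) atTop
      (𝓝 0) := hx.comp (tendsto_id.atTop_mul_const' (by omega))
  have hneg : Real.log (1 - ε) < 0 := Real.log_neg hθ0 (by linarith)
  have hup : Tendsto (fun j : ℕ => Real.log (1 - ε) / n + Real.log (2 * C) / n / j) atTop
      (𝓝 (Real.log (1 - ε) / n)) := by
    have := (tendsto_const_div_atTop_nhds_zero_nat (Real.log (2 * C) / n)).const_add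
      (Real.log (1 - ε) / n)
    simpa using this
  have h0 : (0 : ℝ) ≤ Real.log (1 - ε) / n := by
    refine le_of_tendsto_of_tendsto hsub hup ?_
    filter_upwards [eventually_gt_atTop 0] with j hj
    have hj' : (0 : ℝ) < j := by exact_mod_cast hj
    have := hlog j
    push_cast
    rw [div_le_iff₀ (by positivity)]
    have e : (Real.log (1 - ε) / n + Real.log (2 * C) / n / j) * (j * n) =
        j * Real.log (1 - ε) + Real.log (2 * C) := by
      field_simp
    rw [e]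
    exact this
  have h1 : Real.log (1 - ε) / n < 0 := div_neg_of_neg_of_pos hneg hn'
  linarith

/-- the trajectory -/
noncomputable def VV (γ S t : ℝ) (x : ℕ → Bool) (z : Fin 2 → ℝ) (i : ℕ) : Fin 2 → ℝ :=
  hat γ S t (fac x 0 i) z

lemma VV_add (x : ℕ → Bool) (z : Fin 2 → ℝ) (i m : ℕ) :
    VV γ S t x z (i + m) = hat γ S t (fac x i m) (VV γ S t x z i) := by
  unfold VV
  rw [fac_add, hat_append, Nat.zero_add]

/-- an extremal trajectory of length `n` -/
structure Traj (γ S t ε : ℝ) (n : ℕ) (x : ℕ → Bool) (z : Fin 2 → ℝ) : Prop where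
  nonneg : ∀ i, 0 ≤ z i
  le : Nn γ S t z ≤ 1
  lt : 1 - ε < Nn γ S t (VV γ S t x z n)

variable {ε : ℝ} {n : ℕ} {x : ℕ → Bool} {z : Fin 2 → ℝ}

lemma Traj.vnonneg (h : Traj γ S t ε n x z) (i : ℕ) (k : Fin 2) : 0 ≤ VV γ S t x z i k :=
  hat_nonneg _ h.nonneg k

lemma Traj.N_le (H : Core γ S t d C) (h : Traj γ S t ε n x z) (i : ℕ) :
    Nn γ S t (VV γ S t x z i) ≤ 1 := (Nn_hat H _ _).trans h.le

lemma Traj.N_gt (H : Core γ S t d C) (h : Traj γ S t ε n x z) {i : ℕ} (hi : i ≤ n) :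
    1 - ε < Nn γ S t (VV γ S t x z i) := by
  obtain ⟨m, rfl⟩ := Nat.exists_eq_add_of_le hi
  have h1 := h.lt
  rw [VV_add] at h1
  exact lt_of_lt_of_le h1 (Nn_hat H _ _)

lemma Traj.l1_le (H : Core γ S t d C) (h : Traj γ S t ε n x z) (i : ℕ) :
    l1 (VV γ S t x z i) ≤ 1 := (l1_le_Nn H _).trans (h.N_le H i)

lemma Traj.l1_ge (H : Core γ S t d C) (h : Traj γ S t ε n x z) (hε2 : ε ≤ 1 / 2) {i : ℕ}
    (hi : i ≤ n) : 1 / (2 * C) ≤ l1 (VV γ S t x z i) := by
  have h1 := h.N_gt H hi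
  have h2 := Nn_le H (VV γ S t x z i)
  have hC := H.hC
  rw [div_le_iff₀ (by positivity)]
  nlinarith

lemma Traj.fac_ge (H : Core γ S t d C) (h : Traj γ S t ε n x z) (hε2 : ε ≤ 1 / 2) {i m : ℕ}
    (hi : i + m ≤ n) : 1 / (2 * C) ≤ cc γ S t (fac x i m) * sg (fac x i m) := by
  have h1 := h.l1_ge H hε2 hi
  rw [VV_add] at h1
  refine h1.trans ((l1_hat_le _ _).trans ?_)
  have h2 := h.l1_le H i
  have h3 : 0 ≤ cc γ S t (fac x i m) * sg (fac x i m) := mul_nonneg (cc_pos _).le (sg_nonneg _)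
  nlinarith [l1_nonneg (VV γ S t x z i)]

/-- the bound for deviations -/
noncomputable def D0 (d C : ℝ) : ℝ := Real.log (2 * C ^ 2) / d

lemma D0_nonneg (H : Core γ S t d C) : 0 ≤ D0 d C := by
  unfold D0
  have hC := H.hC
  exact div_nonneg (Real.log_nonneg (by nlinarith)) H.hd.le

lemma DD_le (H : Core γ S t d C) {w : List Bool} (h : 1 / (2 * C) ≤ cc γ S t w * sg w) :
    |DD γ w| ≤ D0 d C := by
  have hC := H.hC
  have h1 := h.trans (H.hsg w)
  unfold D0
  rw [le_div_iff₀ H.hd]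
  have h2 : Real.exp (d * |DD γ w|) ≤ 2 * C ^ 2 := by
    rw [Real.exp_neg, div_le_iff₀ (by positivity)] at h1
    have h3 := Real.exp_pos (d * |DD γ w|)
    have h4 : C * (Real.exp (d * |DD γ w|))⁻¹ * (2 * C) = 2 * C ^ 2 / Real.exp (d * |DD γ w|) := by
      field_simp
    rw [h4, le_div_iff₀ h3] at h1
    linarith
  have h3 := Real.log_le_log (Real.exp_pos _) h2
  rw [Real.log_exp] at h3
  linarith

end

end Pool.Agent.Q120.JS
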