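import Pool.Agent.Q120.JS.Basic

/-!
# The joint spectral radius of the weighted pair, helper file
-/

set_option autoImplicit false

namespace Pool.Agent.Q120.JS

open Matrix Finset Filter Topology

/-- the weighted value of a word -/
noncomputable def val (α : ℝ) (w : List Bool) : ℝ := α ^ (w.count true) * sg w

lemma val_nonneg {α : ℝ} (hα : 0 ≤ α) (w : List Bool) : 0 ≤ val α w :=
  mul_nonneg (pow_nonneg hα _) (sg_nonneg w)

lemma val_pos {α : ℝ} (hα : 0 < α) (w : List Bool) : 0 < val α w :=
  mul_pos (pow_pos hα _) (sg_pos w)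

lemma val_append {α : ℝ} (hα : 0 ≤ α) (u v : List Bool) :
    val α (u ++ v) ≤ val α u * val α v := by
  unfold val
  rw [List.count_append, pow_add]
  have h1 := sg_append u v
  have h2 : 0 ≤ α ^ (u.count true) * α ^ (v.count true) := by positivity
  calc α ^ (u.count true) * α ^ (v.count true) * sg (u ++ v)
      ≤ α ^ (u.count true) * α ^ (v.count true) * (sg v * sg u) :=
        mul_le_mul_of_nonneg_left h1 h2
    _ = _ := by ring

/-- a maximal word of length `n` -/
lemma exists_max (α : ℝ) (n : ℕ) : ∃ x : ℕ → Bool, ∀ y : ℕ → Bool,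
    val α (fac y 0 n) ≤ val α (fac x 0 n) := by
  have hfin : (Set.range (fun x : ℕ → Bool => fac x 0 n)).Finite := by
    refine (List.finite_length_eq Bool n).subset ?_
    rintro w ⟨x, rfl⟩
    exact length_fac x 0 n
  obtain ⟨w, ⟨x, rfl⟩, hw⟩ := Set.exists_max_image _ (val α) hfin ⟨_, ⟨fun _ => false, rfl⟩⟩
  exact ⟨x, fun y => hw _ ⟨y, rfl⟩⟩

/-- the maximal value at length `n` -/
noncomputable def am (α : ℝ) (n : ℕ) : ℝ := val α (fac (exists_max α n).choose 0 n)

lemma le_am (α : ℝ) (n : ℕ) (y : ℕ → Bool) : val α (fac y 0 n) ≤ am α n :=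
  (exists_max α n).choose_spec y

lemma val_le_am (α : ℝ) (w : List Bool) : val α w ≤ am α w.length := by
  obtain ⟨x, hx⟩ := exists_fac w
  have := le_am α w.length x
  rwa [hx] at this

lemma am_pos {α : ℝ} (hα : 0 < α) (n : ℕ) : 0 < am α n := val_pos hα _

lemma am_ge (α : ℝ) (n : ℕ) : (n : ℝ) + 2 ≤ am α n := by
  have h := val_le_am α (List.replicate n false)
  unfold val at h
  rw [sg_replicate_false, List.length_replicate] at h
  have : (List.replicate n false).count true = 0 := by simp [List.count_replicate]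
  rw [this] at h
  simpa using h

lemma am_add {α : ℝ} (hα : 0 ≤ α) (m n : ℕ) : am α (m + n) ≤ am α m * am α n := by
  unfold am
  set x := (exists_max α (m + n)).choose
  rw [fac_add]
  refine (val_append hα _ _).trans ?_
  refine mul_le_mul (le_am α m x) ?_ (val_nonneg hα _) (val_nonneg hα _)
  rw [fac_shift]
  exact le_am α n _

/-- logarithm of the maximum -/
noncomputable def lu (α : ℝ) (n : ℕ) : ℝ := Real.log (am α n)

lemma lu_sub {α : ℝ} (hα : 0 < α) : Subadditive (lu α) := by
  intro m n
  unfold lu
  rw [← Real.log_mul (am_pos hα m).ne' (am_pos hα n).ne']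
  exact Real.log_le_log (am_pos hα _) (am_add hα.le m n)

lemma lu_nonneg (α : ℝ) (n : ℕ) : 0 ≤ lu α n := by
  unfold lu
  apply Real.log_nonneg
  have := am_ge α n
  have : (0 : ℝ) ≤ n := Nat.cast_nonneg n
  linarith [am_ge α n]

lemma lu_bdd (α : ℝ) : BddBelow (Set.range fun n => lu α n / n) := by
  refine ⟨0, ?_⟩
  rintro _ ⟨n, rfl⟩
  exact div_nonneg (lu_nonneg α n) (Nat.cast_nonneg n)

/-- logarithm of the joint spectral radius -/
noncomputable def FF {α : ℝ} (hα : 0 < α) : ℝ := (lu_sub hα).lim

lemma FF_tendsto {α : ℝ} (hα : 0 < α) : Tendsto (fun n => lu α n / n) atTop (𝓝 (FF hα)) :=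
  (lu_sub hα).tendsto_lim (lu_bdd α)

lemma FF_nonneg {α : ℝ} (hα : 0 < α) : 0 ≤ FF hα :=
  ge_of_tendsto' (FF_tendsto hα) fun n => div_nonneg (lu_nonneg α n) (Nat.cast_nonneg n)

lemma FF_le {α : ℝ} (hα : 0 < α) (n : ℕ) : n * FF hα ≤ lu α n := by
  rcases Nat.eq_zero_or_pos n with rfl | hn
  · simpa using lu_nonneg α 0
  · have h := (lu_sub hα).lim_le_div (lu_bdd α) hn.ne'
    have hn' : (0 : ℝ) < n := by exact_mod_cast hn
    rw [le_div_iff₀ hn'] at h
    unfold FF
    linarith

/-- the eigenvalue bound -/
lemma lam_le {α : ℝ} (hα : 0 < α) (w : List Bool) :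
    α ^ (w.count true) * lam w ≤ Real.exp (w.length * FF hα) := by
  have hlam : 0 < lam w := by linarith [one_le_lam w]
  have hpos : 0 < α ^ (w.count true) * lam w := by positivity
  rw [← Real.log_le_iff_le_exp hpos]
  have hj : ∀ j : ℕ, j * Real.log (α ^ (w.count true) * lam w) ≤ lu α (j * w.length) := by
    intro j
    unfold lu
    rw [← Real.log_pow]
    apply Real.log_le_log (by positivity)
    have h1 := val_le_am α (wpow w j)
    rw [length_wpow] at h1
    refine le_trans ?_ h1
    unfold val
    rw [count_wpow, mul_pow, ← pow_mul, mul_comm (w.count true) j]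
    exact mul_le_mul_of_nonneg_left (lam_pow_le w j) (by positivity)
  rcases Nat.eq_zero_or_pos w.length with h0 | hn
  · rw [h0] at hj ⊢
    by_contra hc
    push Not at hc
    simp only [Nat.cast_zero, zero_mul, mul_zero] at hj hc
    obtain ⟨j, hj2⟩ := exists_nat_gt (lu α 0 / Real.log (α ^ (w.count true) * lam w))
    rw [div_lt_iff₀ hc] at hj2
    linarith [hj j]
  · have hn' : (0 : ℝ) < w.length := by exact_mod_cast hn
    have h1 : Tendsto (fun j : ℕ => lu α (j * w.length) / ((j * w.length : ℕ) : ℝ)) atTop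
        (𝓝 (FF hα)) := by
      refine (FF_tendsto hα).comp ?_
      exact tendsto_id.atTop_mul_const' hn
    have h2 : Real.log (α ^ (w.count true) * lam w) / w.length ≤ FF hα := by
      refine ge_of_tendsto h1 ?_
      filter_upwards [eventually_gt_atTop 0] with j hj0
      have hj' : (0 : ℝ) < j := by exact_mod_cast hj0
      push_cast
      rw [div_le_div_iff₀ hn' (by positivity)]
      have := hj j
      nlinarith
    rw [div_le_iff₀ hn'] at h2
    linarith

/-- all words are bounded by the spectral radius up to a constant -/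
lemma val_le {α : ℝ} (hα : 0 < α) (w : List Bool) :
    val α w ≤ 2 * Real.exp (2 * FF hα) / α * Real.exp (w.length * FF hα) := by
  have h1 := lam_le hα (true :: false :: w)
  have h2 := sg_le_tr w
  have h3 := tr_le_lam (true :: false :: w)
  have hc : (true :: false :: w).count true = w.count true + 1 := by simp
  have hl : (true :: false :: w).length = w.length + 2 := by simp
  rw [hc, hl] at h1
  unfold val
  have h4 : α ^ (w.count true + 1) * sg w ≤ 2 * Real.exp (((w.length + 2 : ℕ) : ℝ) * FF hα) := by
    have hp : 0 ≤ α ^ (w.count true + 1) := by positivity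
    nlinarith [mul_le_mul_of_nonneg_left (h2.trans h3) hp]
  have e : Real.exp (((w.length + 2 : ℕ) : ℝ) * FF hα) =
      Real.exp (2 * FF hα) * Real.exp (w.length * FF hα) := by
    rw [← Real.exp_add]
    push_cast
    ring_nf
  rw [e] at h4
  rw [div_mul_eq_mul_div, le_div_iff₀ hα]
  calc α ^ w.count true * sg w * α = α ^ (w.count true + 1) * sg w := by ring
    _ ≤ _ := h4
    _ = _ := by ring

/-- the constant -/
noncomputable def CC {α : ℝ} (hα : 0 < α) : ℝ := 2 * Real.exp (2 * FF hα) / α

lemma CC_pos {α : ℝ} (hα : 0 < α) : 0 < CC hα := by unfold CC; positivity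

lemma val_le' {α : ℝ} (hα : 0 < α) (w : List Bool) :
    val α w ≤ CC hα * Real.exp (w.length * FF hα) := val_le hα w

/-- factors of maximal words are large -/
lemma factor_ge {α : ℝ} (hα : 0 < α) (p u s : List Bool)
    (h : am α (p ++ u ++ s).length ≤ val α (p ++ u ++ s)) :
    Real.exp (u.length * FF hα) / CC hα ^ 2 ≤ val α u := by
  have hC := CC_pos hα
  have h1 : Real.exp ((p ++ u ++ s).length * FF hα) ≤ am α (p ++ u ++ s).length := by
    have := FF_le hα (p ++ u ++ s).length
    unfold lu at this
    rwa [Real.le_log_iff_exp_le (am_pos hα _)] at this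
  have h2 : val α (p ++ u ++ s) ≤ val α p * val α u * val α s :=
    (val_append hα.le _ _).trans
      (mul_le_mul_of_nonneg_right (val_append hα.le _ _) (val_nonneg hα.le _))
  have h3 : val α p * val α u * val α s ≤
      (CC hα * Real.exp (p.length * FF hα)) * val α u * (CC hα * Real.exp (s.length * FF hα)) := by
    have a := val_le' hα p
    have b := val_le' hα s
    have hu := val_nonneg hα.le u
    have hs := val_nonneg hα.le s
    have hp := val_nonneg hα.le p
    refine mul_le_mul (mul_le_mul_of_nonneg_right a hu) b hs ?_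
    exact mul_nonneg (by positivity) hu
  have h4 := h1.trans (h.trans (h2.trans h3))
  have e : Real.exp ((p ++ u ++ s).length * FF hα) =
      Real.exp (p.length * FF hα) * Real.exp (u.length * FF hα) * Real.exp (s.length * FF hα) := by
    rw [← Real.exp_add, ← Real.exp_add]
    simp only [List.length_append]
    push_cast
    ring_nf
  rw [e] at h4
  rw [div_le_iff₀ (by positivity)]
  have h5 : Real.exp (p.length * FF hα) * Real.exp (s.length * FF hα) *
      Real.exp (u.length * FF hα) ≤
      Real.exp (p.length * FF hα) * Real.exp (s.length * FF hα) * (val α u * CC hα ^ 2) := by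
    calc _ = Real.exp (p.length * FF hα) * Real.exp (u.length * FF hα) *
        Real.exp (s.length * FF hα) := by ring
      _ ≤ _ := h4
      _ = _ := by ring
  exact le_of_mul_le_mul_left h5 (by positivity)

lemma closed_set (Q : List Bool → Prop) (m : ℕ) : IsClosed {x : ℕ → Bool | Q (fac x 0 m)} := by
  have e : {x : ℕ → Bool | Q (fac x 0 m)} =
      (fun (x : ℕ → Bool) (s : Fin m) => x s) ⁻¹' {f | Q (List.ofFn f)} := by
    ext x
    have : fac x 0 m = List.ofFn (fun s : Fin m => x s) := by
      apply List.ext_getElem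
      · simp [fac]
      · intro i h1 h2
        simp [fac]
    simp only [Set.mem_setOf_eq, Set.mem_preimage, this]
  rw [e]
  exact (isClosed_discrete _).preimage (continuous_pi fun s => continuous_apply _)

lemma closed_K (α : ℝ) (g : ℕ → ℝ) (n : ℕ) : IsClosed {x : ℕ → Bool | ∀ m ≤ n,
    g m ≤ val α (fac x 0 m)} := by
  have e : {x : ℕ → Bool | ∀ m ≤ n, g m ≤ val α (fac x 0 m)} =
      ⋂ m ∈ Set.Iic n, {x | g m ≤ val α (fac x 0 m)} := by
    ext x
    simp
  rw [e]
  exact isClosed_biInter fun m _ => closed_set (fun w => g m ≤ val α w) m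

/-- an infinite word all of whose prefixes are large -/
lemma exists_long {α : ℝ} (hα : 0 < α) : ∃ x : ℕ → Bool, ∀ n : ℕ,
    Real.exp (n * FF hα) / CC hα ^ 2 ≤ val α (fac x 0 n) := by
  let K : ℕ → Set (ℕ → Bool) := fun n =>
    {x | ∀ m ≤ n, Real.exp (m * FF hα) / CC hα ^ 2 ≤ val α (fac x 0 m)}
  have hK : (⋂ n, K n).Nonempty := by
    refine IsCompact.nonempty_iInter_of_sequence_nonempty_isCompact_isClosed K ?_ ?_ ?_ ?_
    · intro n x hx m hm
      exact hx m (by omega)
    · intro n
      refine ⟨(exists_max α n).choose, fun m hm => ?_⟩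
      obtain ⟨l, rfl⟩ := Nat.exists_eq_add_of_le hm
      set x := (exists_max α (m + l)).choose with hx
      have h := factor_ge hα [] (fac x 0 m) (fac x (0 + m) l)
      rw [List.nil_append, ← fac_add, length_fac, length_fac] at h
      exact h (le_refl _)
    · exact (closed_K α _ 0).isCompact
    · intro n
      exact closed_K α _ n
  obtain ⟨x, hx⟩ := hK
  refine ⟨x, fun n => ?_⟩
  exact (Set.mem_iInter.1 hx n) n le_rfl

end Pool.Agent.Q120.JS
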